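import Pool.Agent.Lib.MP_25e40f_pr.S.LowA

/-!
# Stream S, job LowB: the cheap lower bound of the two point function (about 170 lines)

`c(R) = 1 / (2 d (2R+1)^d)`, decreasing in `R`, `0 < c(R) ≤ 1` for `d ≥ 1`.
`low_axis`: `R ≥ 1`, `|k| ≤ R`, `0 < p ≤ 1`: `τ_{Lam (2R)}(0, k e_i) ≥ p c(R)²`.  For `k ≥ 0`: `k = 2 r` or `k = 2 r + 1`, `r = k / 2`, `3 r ≤ 2 R`, `c(r) ≥ c(R)`: `low_even`, `tauD_mono_D`; if `k = 2 r + 1`: `tauD_trans` and `tauD_nb` for the edge from `2 r e_i` to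
`(2 r + 1) e_i` (both in `Lam (2R)` as `k ≤ R`).  For `k < 0`: the reflection `reflZ i 0` maps `0 ↦ 0`, `-k e_i ↦ k e_i`, `Lam (2R)` onto itself.
`low_box`: `nrm x ≤ R`: `τ_{Lam (3R)}(0, x) ≥ (p c(R)²)^d`.  For `j ≤ d` let `z_j i = if i < j then x i else 0`; `z_0 = 0`, `z_d = x`, `z_{j+1} = z_j + (x j) e_j`, `nrm z_j ≤ R`.  By `tauD_trans_inv` (translation by `z_j`) and `low_axis`:
`τ_{z_j + Lam (2R)}(z_j, z_{j+1}) ≥ p c(R)²`, and `z_j + Lam (2R) ⊆ Lam (3R)`.  Induction on `j ≤ d` with `tauD_trans`.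
`low`: for `D` containing the box of radius `3 R` around `x`: translation by `x`.  `2R + 1 ≤ 3R`, so `p c(R)² ≥ p / (4 d² 9^d) R^{-2d}` and the bound is `c R^{-β}` with `β = 2 d²`, `c = (p / (4 d² 9^d))^d`.
-/

set_option autoImplicit false

noncomputable section

open Finset
open scoped Classical

namespace IPC.S

variable {d : ℕ}

private theorem LowB_cpos {R : ℕ} (i : Fin d) : 0 < 1 / (2 * (d : ℝ) * (2 * (R : ℝ) + 1) ^ d) := by
  have hd : 0 < d := lt_of_le_of_lt (Nat.zero_le _) i.2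
  have hd' : (0 : ℝ) < d := by exact_mod_cast hd
  positivity

private theorem LowB_cmono {r R : ℕ} (h : r ≤ R) (i : Fin d) :
    1 / (2 * (d : ℝ) * (2 * (R : ℝ) + 1) ^ d) ≤ 1 / (2 * (d : ℝ) * (2 * (r : ℝ) + 1) ^ d) := by
  have hd : 0 < d := lt_of_le_of_lt (Nat.zero_le _) i.2
  have hd' : (0 : ℝ) < d := by exact_mod_cast hd
  have h' : (r : ℝ) ≤ R := by exact_mod_cast h
  have hr : (0 : ℝ) ≤ r := Nat.cast_nonneg r
  refine one_div_le_one_div_of_le (by positivity) ?_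
  refine mul_le_mul_of_nonneg_left ?_ (by positivity)
  exact pow_le_pow_left₀ (by positivity) (by linarith) d

private theorem LowB_nrm_single (i : Fin d) (k : ℤ) {r : ℕ} (h : k.natAbs ≤ r) :
    nrm (Pi.single i k : Fin d → ℤ) ≤ r := by
  rw [nrm_le]
  intro j
  by_cases hj : j = i
  · subst hj
    rw [Pi.single_eq_same]
    exact h
  · rw [Pi.single_eq_of_ne hj]
    exact Nat.zero_le _

private theorem LowB_nat {p : ℝ} (h0 : 0 < p) (h1 : p ≤ 1)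
    (hφ : ∀ S : Finset (Fin d → ℤ), (0 : Fin d → ℤ) ∈ S → 1 ≤ phi (Zg d) p 0 S) {R : ℕ}
    (i : Fin d) (k : ℕ) (hk : k ≤ R) :
    p * (1 / (2 * (d : ℝ) * (2 * (R : ℝ) + 1) ^ d)) ^ 2 ≤
      (Zg d).tauD p ((Zg d).Lam (2 * R)) 0 (Pi.single i (k : ℤ)) := by
  obtain ⟨r, hr⟩ : ∃ r : ℕ, r = k / 2 := ⟨_, rfl⟩
  have hrR : r ≤ R := by omega
  have hc0 : 0 < 1 / (2 * (d : ℝ) * (2 * (R : ℝ) + 1) ^ d) := LowB_cpos i
  have hcm : (1 / (2 * (d : ℝ) * (2 * (R : ℝ) + 1) ^ d)) ^ 2 ≤ (1 / (2 * (d : ℝ) * (2 * (r : ℝ) + 1) ^ d)) ^ 2 :=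
    pow_le_pow_left₀ hc0.le (LowB_cmono hrR i) 2
  have hsub : (Zg d).Lam (3 * r) ⊆ (Zg d).Lam (2 * R) := by
    intro z hz
    rw [mem_Lam] at hz ⊢
    omega
  have h2 : (1 / (2 * (d : ℝ) * (2 * (R : ℝ) + 1) ^ d)) ^ 2 ≤
      (Zg d).tauD p ((Zg d).Lam (2 * R)) 0 (Pi.single i (2 * (r : ℤ))) :=
    (hcm.trans (low_even h0.le h1 hφ r i)).trans (T.tauD_mono_D (Zg d) h0.le h1 hsub _ _)
  rcases Nat.lt_or_ge (2 * r) k with h | h
  · have hk2 : (k : ℤ) = 2 * (r : ℤ) + 1 := by omega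
    have h3 : p ≤ (Zg d).tauD p ((Zg d).Lam (2 * R)) (Pi.single i (2 * (r : ℤ))) (Pi.single i (k : ℤ)) := by
      refine T.tauD_nb (Zg d) h0.le h1 ?_ ?_ ?_
      · rw [mem_Lam]
        exact LowB_nrm_single i _ (by omega)
      · rw [mem_Lam]
        exact LowB_nrm_single i _ (by omega)
      · have h4 := nb_update (Pi.single i (2 * (r : ℤ)) : Fin d → ℤ) i (s := 1) (Or.inl rfl)
        rw [Pi.single_eq_same] at h4
        have h5 : Function.update (Pi.single i (2 * (r : ℤ)) : Fin d → ℤ) i (2 * (r : ℤ) + 1) = Pi.single i (k : ℤ) := by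
          rw [hk2]
          funext j
          by_cases hj : j = i
          · subst hj
            rw [Function.update_self, Pi.single_eq_same]
          · rw [Function.update_of_ne hj, Pi.single_eq_of_ne hj, Pi.single_eq_of_ne hj]
        rw [h5] at h4
        exact h4
    calc p * (1 / (2 * (d : ℝ) * (2 * (R : ℝ) + 1) ^ d)) ^ 2
        = (1 / (2 * (d : ℝ) * (2 * (R : ℝ) + 1) ^ d)) ^ 2 * p := mul_comm _ _
      _ ≤ (Zg d).tauD p ((Zg d).Lam (2 * R)) 0 (Pi.single i (2 * (r : ℤ))) *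
          (Zg d).tauD p ((Zg d).Lam (2 * R)) (Pi.single i (2 * (r : ℤ))) (Pi.single i (k : ℤ)) :=
        mul_le_mul h2 h3 h0.le (T.tauD_nonneg (Zg d) h0.le h1 _ _ _)
      _ ≤ _ := T.tauD_trans (Zg d) h0.le h1 _ _ _ _
  · have hk2 : (k : ℤ) = 2 * (r : ℤ) := by omega
    rw [hk2]
    refine le_trans ?_ h2
    have h6 : 0 ≤ (1 / (2 * (d : ℝ) * (2 * (R : ℝ) + 1) ^ d)) ^ 2 := sq_nonneg _
    calc p * (1 / (2 * (d : ℝ) * (2 * (R : ℝ) + 1) ^ d)) ^ 2 ≤ 1 * (1 / (2 * (d : ℝ) * (2 * (R : ℝ) + 1) ^ d)) ^ 2 :=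
        mul_le_mul_of_nonneg_right h1 h6
      _ = _ := one_mul _

private theorem LowB_image (i : Fin d) (r : ℕ) : ((Zg d).Lam r).image (reflZ i 0) = (Zg d).Lam r := by
  have hinv : ∀ y : Fin d → ℤ, reflZ i 0 (reflZ i 0 y) = y := by
    intro y
    show Function.update (Function.update y i (2 * 0 - y i)) i (2 * 0 - (Function.update y i (2 * 0 - y i)) i) = y
    rw [Function.update_self, Function.update_idem]
    have h : (2 * 0 - (2 * 0 - y i) : ℤ) = y i := by ring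
    rw [h, Function.update_eq_self]
  ext y
  rw [Finset.mem_image]
  constructor
  · rintro ⟨z, hz, rfl⟩
    rw [mem_Lam] at hz ⊢
    rw [nrm_refl_zero]
    exact hz
  · intro hy
    refine ⟨reflZ i 0 y, ?_, hinv y⟩
    rw [mem_Lam] at hy ⊢
    rw [nrm_refl_zero]
    exact hy

private theorem LowB_step {p : ℝ} (h0 : 0 < p) (h1 : p ≤ 1)
    (hφ : ∀ S : Finset (Fin d → ℤ), (0 : Fin d → ℤ) ∈ S → 1 ≤ phi (Zg d) p 0 S) {R : ℕ}
    (hR : 1 ≤ R) (x : Fin d → ℤ) (hx : nrm x ≤ R)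
    (hax : ∀ (i : Fin d) (k : ℤ), k.natAbs ≤ R → p * (1 / (2 * (d : ℝ) * (2 * (R : ℝ) + 1) ^ d)) ^ 2 ≤
      (Zg d).tauD p ((Zg d).Lam (2 * R)) 0 (Pi.single i k)) (j : ℕ) (hj : j ≤ d) :
    (p * (1 / (2 * (d : ℝ) * (2 * (R : ℝ) + 1) ^ d)) ^ 2) ^ j ≤
      (Zg d).tauD p ((Zg d).Lam (3 * R)) 0 (fun i => if (i : ℕ) < j then x i else 0) := by
  induction j with
  | zero =>
    have h2 : (fun i : Fin d => if (i : ℕ) < 0 then x i else 0) = 0 := by
      funext i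
      simp
    rw [h2, T.tauD_self (Zg d), pow_zero]
  | succ j ih =>
    have ih' := ih (by omega)
    obtain ⟨i, hi⟩ : ∃ i : Fin d, (i : ℕ) = j := ⟨⟨j, by omega⟩, rfl⟩
    set z : Fin d → ℤ := fun i => if (i : ℕ) < j then x i else 0 with hz
    have hz1 : (fun i : Fin d => if (i : ℕ) < j + 1 then x i else 0) = z + Pi.single i (x i) := by
      funext l
      show (if (l : ℕ) < j + 1 then x l else 0) = (if (l : ℕ) < j then x l else 0) + (Pi.single i (x i) : Fin d → ℤ) l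
      by_cases hl : l = i
      · subst hl
        rw [Pi.single_eq_same]
        rw [if_pos (by omega : (l : ℕ) < j + 1), if_neg (by omega : ¬ (l : ℕ) < j), zero_add]
      · rw [Pi.single_eq_of_ne hl, add_zero]
        have hne : (l : ℕ) ≠ j := fun h => hl (Fin.ext (h.trans hi.symm))
        by_cases hl2 : (l : ℕ) < j
        · rw [if_pos (by omega : (l : ℕ) < j + 1), if_pos hl2]
        · rw [if_neg (by omega : ¬ (l : ℕ) < j + 1), if_neg hl2]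
    have hzn : nrm z ≤ R := by
      rw [nrm_le]
      intro l
      rw [hz]
      show (if (l : ℕ) < j then x l else 0).natAbs ≤ R
      split_ifs
      · exact (natAbs_le_nrm x l).trans hx
      · exact Nat.zero_le _
    have h2 := hax i (x i) ((natAbs_le_nrm x i).trans hx)
    rw [← tauD_trans_inv p z ((Zg d).Lam (2 * R)) 0 (Pi.single i (x i)), add_zero] at h2
    have hsub : ((Zg d).Lam (2 * R)).image (fun w => z + w) ⊆ (Zg d).Lam (3 * R) := by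
      intro w hw
      rw [Finset.mem_image] at hw
      obtain ⟨v, hv, rfl⟩ := hw
      rw [mem_Lam] at hv ⊢
      have := nrm_add z v
      omega
    have h3 := h2.trans (T.tauD_mono_D (Zg d) h0.le h1 hsub z (z + Pi.single i (x i)))
    rw [hz1, pow_succ]
    refine le_trans ?_ (T.tauD_trans (Zg d) h0.le h1 _ 0 z _)
    exact mul_le_mul ih' h3 (by positivity) (T.tauD_nonneg (Zg d) h0.le h1 _ _ _)

theorem low_axis {p : ℝ} (h0 : 0 < p) (h1 : p ≤ 1)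
    (hφ : ∀ S : Finset (Fin d → ℤ), (0 : Fin d → ℤ) ∈ S → 1 ≤ phi (Zg d) p 0 S) {R : ℕ}
    (hR : 1 ≤ R) (i : Fin d) (k : ℤ) (hk : k.natAbs ≤ R) :
    p * (1 / (2 * (d : ℝ) * (2 * (R : ℝ) + 1) ^ d)) ^ 2 ≤
      (Zg d).tauD p ((Zg d).Lam (2 * R)) 0 (Pi.single i k) := by
  rcases Int.natAbs_eq k with h | h
  · rw [h]
    exact LowB_nat h0 h1 hφ i k.natAbs hk
  · have h2 := LowB_nat h0 h1 hφ i k.natAbs hk
    rw [← T.tauD_iso (Zg d) (Zg d) p (reflZ i 0) (nb_refl i 0) ((Zg d).Lam (2 * R)) 0 (Pi.single i (k.natAbs : ℤ)), LowB_image] at h2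
    have h3 : reflZ i 0 (0 : Fin d → ℤ) = 0 := by
      show Function.update (0 : Fin d → ℤ) i (2 * 0 - (0 : Fin d → ℤ) i) = 0
      have e : (2 * 0 - (0 : Fin d → ℤ) i : ℤ) = (0 : Fin d → ℤ) i := by simp
      rw [e, Function.update_eq_self]
    have h4 : reflZ i 0 (Pi.single i (k.natAbs : ℤ) : Fin d → ℤ) = Pi.single i k := by
      show Function.update (Pi.single i (k.natAbs : ℤ) : Fin d → ℤ) i (2 * 0 - (Pi.single i (k.natAbs : ℤ) : Fin d → ℤ) i) = Pi.single i k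
      funext j
      by_cases hj : j = i
      · subst hj
        rw [Function.update_self, Pi.single_eq_same, Pi.single_eq_same]
        omega
      · rw [Function.update_of_ne hj, Pi.single_eq_of_ne hj, Pi.single_eq_of_ne hj]
    rw [h3, h4] at h2
    exact h2

theorem low_box {p : ℝ} (h0 : 0 < p) (h1 : p ≤ 1)
    (hφ : ∀ S : Finset (Fin d → ℤ), (0 : Fin d → ℤ) ∈ S → 1 ≤ phi (Zg d) p 0 S) {R : ℕ}
    (hR : 1 ≤ R) (x : Fin d → ℤ) (hx : nrm x ≤ R) :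
    (p * (1 / (2 * (d : ℝ) * (2 * (R : ℝ) + 1) ^ d)) ^ 2) ^ d ≤
      (Zg d).tauD p ((Zg d).Lam (3 * R)) 0 x := by
  have h2 := LowB_step h0 h1 hφ hR x hx (fun i k hk => low_axis h0 h1 hφ hR i k hk) d le_rfl
  have h3 : (fun i : Fin d => if (i : ℕ) < d then x i else 0) = x := by
    funext i
    rw [if_pos i.2]
  rw [h3] at h2
  exact h2

/-- the cheap lower bound -/
theorem low (hd : 1 ≤ d) {p : ℝ} (h0 : 0 < p) (h1 : p ≤ 1)
    (hφ : ∀ S : Finset (Fin d → ℤ), (0 : Fin d → ℤ) ∈ S → 1 ≤ phi (Zg d) p 0 S) :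
    ∃ c : ℝ, 0 < c ∧ ∃ β : ℕ, ∀ R : ℕ, 1 ≤ R → ∀ x y : Fin d → ℤ, nrm (y - x) ≤ R →
      ∀ D : Finset (Fin d → ℤ), (∀ z, nrm (z - x) ≤ 3 * R → z ∈ D) →
        c / (R : ℝ) ^ β ≤ (Zg d).tauD p D x y := by
  have hd' : (1 : ℝ) ≤ d := by exact_mod_cast hd
  have hd0 : (0 : ℝ) < d := by linarith
  refine ⟨(p / (4 * (d : ℝ) ^ 2 * 9 ^ d)) ^ d, by positivity, 2 * d * d, ?_⟩
  intro R hR x y hxy D hD
  have hR' : (1 : ℝ) ≤ R := by exact_mod_cast hR
  have hR0 : (0 : ℝ) < R := by linarith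
  have h2 := low_box h0 h1 hφ hR (y - x) hxy
  rw [← tauD_trans_inv p x ((Zg d).Lam (3 * R)) 0 (y - x), add_zero, add_sub_cancel] at h2
  have hsub : ((Zg d).Lam (3 * R)).image (fun w => x + w) ⊆ D := by
    intro w hw
    rw [Finset.mem_image] at hw
    obtain ⟨v, hv, rfl⟩ := hw
    rw [mem_Lam] at hv
    refine hD _ ?_
    rw [add_sub_cancel_left]
    exact hv
  have h3 := h2.trans (T.tauD_mono_D (Zg d) h0.le h1 hsub x y)
  refine le_trans ?_ h3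
  have h4 : (p / (4 * (d : ℝ) ^ 2 * 9 ^ d)) ^ d / (R : ℝ) ^ (2 * d * d) =
      (p / (4 * (d : ℝ) ^ 2 * 9 ^ d) / (R : ℝ) ^ (2 * d)) ^ d := by
    rw [div_pow _ ((R : ℝ) ^ (2 * d)), ← pow_mul]
  rw [h4]
  refine pow_le_pow_left₀ (by positivity) ?_ d
  have h5 : 1 / (2 * (d : ℝ) * (3 * (R : ℝ)) ^ d) ≤ 1 / (2 * (d : ℝ) * (2 * (R : ℝ) + 1) ^ d) := by
    refine one_div_le_one_div_of_le (by positivity) ?_
    refine mul_le_mul_of_nonneg_left ?_ (by positivity)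
    exact pow_le_pow_left₀ (by positivity) (by linarith) d
  have h6 : (1 / (2 * (d : ℝ) * (3 * (R : ℝ)) ^ d)) ^ 2 ≤ (1 / (2 * (d : ℝ) * (2 * (R : ℝ) + 1) ^ d)) ^ 2 :=
    pow_le_pow_left₀ (by positivity) h5 2
  have h7 : p / (4 * (d : ℝ) ^ 2 * 9 ^ d) / (R : ℝ) ^ (2 * d) = p * (1 / (2 * (d : ℝ) * (3 * (R : ℝ)) ^ d)) ^ 2 := by
    have e1 : (9 : ℝ) ^ d = (3 ^ d) ^ 2 := by
      rw [← pow_mul, mul_comm d 2, pow_mul]
      norm_num
    have e2 : (R : ℝ) ^ (2 * d) = ((R : ℝ) ^ d) ^ 2 := by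
      rw [← pow_mul, mul_comm d 2]
    rw [e1, e2, mul_pow 3 (R : ℝ) d]
    field_simp
    ring
  rw [h7]
  exact mul_le_mul_of_nonneg_left h6 h0.le

end IPC.S
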