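import Pool.Agent.Lib.MP_25e40f_pr.T.Ein

/-!
# Stream S, job Bdy: the set of the vertices which are blocked from the outside (about 130 lines)

`E = touch D`, `ω ⊆ E`.  `blk D ω` = vertices of `D` not connected to the outside of `D`.
`blk_closed`: if `blk D ω = S` then no edge of `ω` joins `S` to its complement: `a ∈ S`, `s(a, b) ∈ ω`, `b ∉ S`: `b ∉ D`, or `b ∈ D` is connected to the outside; then so is `a`.
`blk_anti`: `ω' ⊆ ω` implies `blk D ω ⊆ blk D ω'`.
`blk_iff`: `blk D ω = S ↔ blk D (ω \ ein S) = S`.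
 (⇒) `⊇`: `blk_anti`.  `⊆`: if `y ∈ D \ S`, then `y` is connected in `ω` to some `z ∉ D`; every vertex on the way (induction, `Conn` from the end: use `Conn_symm`, start at `z`) is connected to `z`, so not in `S = blk D ω`; so all the edges used have no
     endpoint in `S`, in particular they are not in `ein S`: `Conn (ω \ ein S) y z` (e.g. `Conn_off_of_disjoint` with `A = S` applied to the connection `z → y`, and `off ω S ⊆ ω \ ein S`), so `y ∉ blk D (ω \ ein S)`.
 (⇐) let `ω' = ω \ ein S`, `blk D ω' = S`.  No edge of `ω` joins `S` to the complement (such an edge is not in `ein S`, so in `ω'`, contradiction with `blk_closed`).  If `y ∈ S` and `Conn ω y z` then `z ∈ S ⊆ D` (`Conn_closed`), so `y ∈ blk D ω`.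
     If `y ∈ D \ S`, it is connected to the outside in `ω' ⊆ ω`.
`blk_conn`: `blk D ω = S`, `x ∈ S`: `Conn ω x y ↔ Conn (ω ∩ ein S) x y`: an edge of `ω ⊆ touch D` with both endpoints in `S` is in `ein S` (`mem_touch`, `mem_ein`); `Conn_of_closed`: every `a` connected to `x` in `ω ∩ ein S` is in `S`, its `ω`-edges stay in `S`.
`blk_pivotal`: `x ∈ blk D ω`, `y ∈ blk D ω`, `Conn ω x y`, `z ∈ nb y`, `z ∉ blk D ω`: `s(y, z) ∈ touch D`, `s(y, z) ∉ ω`, and in `insert s(y, z) ω` the vertex `x` is connected to the outside.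
-/

set_option autoImplicit false

noncomputable section

open Finset
open scoped Classical

namespace IPC.S

variable {V : Type} [DecidableEq V] (G : PG V)

/-- vertices of `D` which are not connected to the outside of `D` -/
def blk (D : Finset V) (ω : Finset (Sym2 V)) : Finset V :=
  D.filter fun y => ¬ ∃ z, z ∉ D ∧ Conn ω y z

theorem mem_blk {D : Finset V} {ω : Finset (Sym2 V)} {y : V} :
    y ∈ blk D ω ↔ y ∈ D ∧ ∀ z, Conn ω y z → z ∈ D := by
  unfold blk
  rw [Finset.mem_filter]
  constructor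
  · rintro ⟨h1, h2⟩
    refine ⟨h1, fun z hz => ?_⟩
    by_contra hcon
    exact h2 ⟨z, hcon, hz⟩
  · rintro ⟨h1, h2⟩
    exact ⟨h1, fun ⟨z, hz, hc⟩ => hz (h2 z hc)⟩

theorem blk_closed {D : Finset V} {ω : Finset (Sym2 V)} {a b : V} (ha : a ∈ blk D ω)
    (h : s(a, b) ∈ ω) : b ∈ blk D ω := by
  rw [mem_blk] at ha ⊢
  exact ⟨ha.2 b (Conn_edge h), fun z hz => ha.2 z (Conn_trans (Conn_edge h) hz)⟩

theorem blk_anti {D : Finset V} {ω ω' : Finset (Sym2 V)} (h : ω' ⊆ ω) : blk D ω ⊆ blk D ω' := by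
  intro y hy
  rw [mem_blk] at hy ⊢
  exact ⟨hy.1, fun z hz => hy.2 z (Conn_mono h hz)⟩

theorem blk_iff {D : Finset V} {ω : Finset (Sym2 V)} (hω : ω ⊆ G.touch D) (S : Finset V) :
    blk D ω = S ↔ blk D (ω ∩ (G.touch D \ G.ein S)) = S := by
  have hsub : ω ∩ (G.touch D \ G.ein S) ⊆ ω := Finset.inter_subset_left
  constructor
  · intro h
    refine Finset.Subset.antisymm ?_ ?_
    · intro y hy
      by_contra hyS
      rw [mem_blk] at hy
      have h1 : y ∉ blk D ω := by rw [h]; exact hyS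
      rw [mem_blk] at h1
      have h2 : ∃ z, z ∉ D ∧ Conn ω y z := by
        by_contra hcon
        refine h1 ⟨hy.1, fun z hz => ?_⟩
        by_contra hz'
        exact hcon ⟨z, hz', hz⟩
      obtain ⟨z, hz, hc⟩ := h2
      have h3 : Conn (off ω (S : Set V)) z y := by
        refine Conn_off_of_disjoint (S : Set V) (Conn_symm hc) fun a ha hza => ?_
        have ha' : a ∈ blk D ω := by rw [h]; exact ha
        rw [mem_blk] at ha'
        exact hz (ha'.2 z (Conn_symm hza))
      have h4 : off ω (S : Set V) ⊆ ω ∩ (G.touch D \ G.ein S) := by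
        intro e he
        have he1 : e ∈ ω := T.off_subset _ _ he
        rw [Finset.mem_inter, Finset.mem_sdiff]
        refine ⟨he1, hω he1, fun he2 => ?_⟩
        induction e using Sym2.ind with
        | _ a b =>
          rw [T.mem_off] at he
          rw [T.mem_ein] at he2
          exact he.2.1 he2.2.1
      exact hz (hy.2 z (Conn_symm (Conn_mono h4 h3)))
    · have h1 := blk_anti (D := D) hsub
      rw [h] at h1
      exact h1
  · intro h
    have hcl : ∀ a b, s(a, b) ∈ ω → a ∈ S → b ∈ S := by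
      intro a b hab ha
      by_contra hb
      have h1 : s(a, b) ∈ ω ∩ (G.touch D \ G.ein S) := by
        rw [Finset.mem_inter, Finset.mem_sdiff]
        refine ⟨hab, hω hab, fun he => ?_⟩
        rw [T.mem_ein] at he
        exact hb he.2.2
      have h2 : a ∈ blk D (ω ∩ (G.touch D \ G.ein S)) := by rw [h]; exact ha
      have h3 := blk_closed h2 h1
      rw [h] at h3
      exact hb h3
    refine Finset.Subset.antisymm ?_ ?_
    · have h1 := blk_anti (D := D) hsub
      rw [h] at h1
      exact h1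
    · intro y hy
      have h1 : y ∈ blk D (ω ∩ (G.touch D \ G.ein S)) := by rw [h]; exact hy
      rw [mem_blk] at h1 ⊢
      refine ⟨h1.1, fun z hz => ?_⟩
      have h2 : z ∈ (S : Set V) := Conn_closed (S : Set V) (Finset.mem_coe.2 hy) (fun a b hab ha => hcl a b hab ha) hz
      have h3 : z ∈ blk D (ω ∩ (G.touch D \ G.ein S)) := by rw [h]; exact h2
      rw [mem_blk] at h3
      exact h3.1

theorem blk_conn {D : Finset V} {ω : Finset (Sym2 V)} (hω : ω ⊆ G.touch D) {S : Finset V}
    (hS : blk D ω = S) {x : V} (hx : x ∈ S) (y : V) :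
    Conn ω x y ↔ Conn (ω ∩ G.ein S) x y := by
  have hcl : ∀ a b, s(a, b) ∈ ω → a ∈ S → b ∈ S := by
    intro a b hab ha
    rw [← hS] at ha ⊢
    exact blk_closed ha hab
  refine Conn_of_closed fun a b ha hab => ?_
  have h1 : a ∈ (S : Set V) := Conn_closed (S : Set V) (Finset.mem_coe.2 hx)
    (fun c d hcd hc => hcl c d (Finset.mem_inter.1 hcd).1 hc) ha
  rw [T.mem_ein]
  have h2 := hω hab
  rw [T.mem_touch] at h2
  exact ⟨h2.1, h1, hcl a b hab h1⟩

theorem blk_pivotal {D : Finset V} {ω : Finset (Sym2 V)} {x y z : V}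
    (hx : x ∈ blk D ω) (hy : y ∈ blk D ω) (hxy : Conn ω x y) (hz : z ∈ G.nb y)
    (hz' : z ∉ blk D ω) : s(y, z) ∈ G.touch D ∧ s(y, z) ∉ ω ∧
      ∃ w, w ∉ D ∧ Conn (insert s(y, z) ω) x w := by
  refine ⟨?_, fun h => hz' (blk_closed hy h), ?_⟩
  · rw [T.mem_touch]
    exact ⟨hz, Or.inl (mem_blk.1 hy).1⟩
  · have h1 : Conn (insert s(y, z) ω) x z :=
      Conn_trans (Conn_mono (Finset.subset_insert _ _) hxy) (Conn_edge (Finset.mem_insert_self _ _))
    by_cases hzD : z ∈ D
    · have h2 : ∃ w, w ∉ D ∧ Conn ω z w := by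
        by_contra hcon
        refine hz' (mem_blk.2 ⟨hzD, fun w hw => ?_⟩)
        by_contra hw'
        exact hcon ⟨w, hw', hw⟩
      obtain ⟨w, hw, hc⟩ := h2
      exact ⟨w, hw, Conn_trans h1 (Conn_mono (Finset.subset_insert _ _) hc)⟩
    · exact ⟨z, hzD, h1⟩

end IPC.S
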