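import Pool.Agent.Lib.MP_25e40f_pr.S.Top

/-!
# Stream S, job Chi: the susceptibility is infinite at `pc` (about 120 lines)

Hypothesis `hφ`: `1 ≤ φ_p(0, S)` for all `S ∋ 0` (at `p = pc` this is `phi_pc`).
`sphere_sum`: `S = Lam r`: in `phi_eq_card` the terms with `nrm y < r` vanish (`nb y ⊆ Lam r`: `nrm z ≤ nrm y + 1` by `nrm_nb`, `nrm_add`), `#(nb y \ S) ≤ 2 d`; so `1 ≤ 2 d p ∑_{nrm y = r} τ_{Lam r}(0, y)`.
`sphere_exists`: the number of terms is at most `(2r+1)^d` (`card_Lam`), so some `y` with `nrm y = r` has `τ_{Lam r}(0, y) ≥ 1 / (2 d (2r+1)^d)` if `p ≤ 1` (`Finset.exists_le_of_sum_le`, or by contradiction).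
`chi_large`: `∑_{y ∈ Lam N} τ(0, y) = ∑_{r ≤ N} ∑_{nrm y = r} τ(0, y) ≥ (N + 1) / (2 d)` (`Finset.sum_fiberwise_of_maps_to`, `tauD_le_tau`).
`chi_large_left`: `M + 1 ≤ ∑_{y ∈ s} τ_pc(0, y)` for some finite `s`; `τ_p(0, y) → τ_pc(0, y)` as `p ↑ pc` (`tau_leftcont`, `pc > 0` by `pc_pos`), a finite sum: for `p` close to `pc` the sum is `≥ M` (`tendsto_finset_sum`, eventually in `nhdsWithin`; then
monotone in `p`, `tau_mono_p`, gives an interval; take one point `p1` of the eventual set and monotonicity).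
-/

set_option autoImplicit false

noncomputable section

open Finset
open scoped Classical

namespace IPC.S

variable {d : ℕ}

theorem sphere_sum {p : ℝ} (h0 : 0 ≤ p) (h1 : p ≤ 1)
    (hφ : ∀ S : Finset (Fin d → ℤ), (0 : Fin d → ℤ) ∈ S → 1 ≤ phi (Zg d) p 0 S) (r : ℕ) :
    1 ≤ 2 * d * p * ∑ y ∈ ((Zg d).Lam r).filter (fun y => nrm y = r),
      (Zg d).tauD p ((Zg d).Lam r) 0 y := by
  have h2 : (0 : Fin d → ℤ) ∈ (Zg d).Lam r := by
    rw [mem_Lam, nrm_zero]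
    exact Nat.zero_le r
  have h3 := hφ _ h2
  rw [phi_eq_card] at h3
  have h4 : ∑ y ∈ (Zg d).Lam r, ((((Zg d).nb y) \ (Zg d).Lam r).card : ℝ) *
      (Zg d).tauD p ((Zg d).Lam r) 0 y ≤
      2 * d * ∑ y ∈ ((Zg d).Lam r).filter (fun y => nrm y = r), (Zg d).tauD p ((Zg d).Lam r) 0 y := by
    rw [Finset.mul_sum, Finset.sum_filter]
    refine Finset.sum_le_sum fun y hy => ?_
    have h5 := T.tauD_nonneg (Zg d) h0 h1 ((Zg d).Lam r) 0 y
    by_cases h6 : nrm y = r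
    · rw [if_pos h6]
      refine mul_le_mul_of_nonneg_right ?_ h5
      have h7 : (((Zg d).nb y) \ (Zg d).Lam r).card ≤ 2 * d :=
        (Finset.card_le_card Finset.sdiff_subset).trans (card_nb_le y)
      exact_mod_cast h7
    · rw [if_neg h6]
      have h7 : ((Zg d).nb y) \ (Zg d).Lam r = ∅ := by
        rw [Finset.sdiff_eq_empty_iff_subset]
        intro z hz
        rw [mem_Lam] at hy ⊢
        have h8 := nrm_nb hz
        have h9 := nrm_add y (z - y)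
        rw [add_sub_cancel] at h9
        omega
      rw [h7, Finset.card_empty, Nat.cast_zero, zero_mul]
  have h10 := mul_le_mul_of_nonneg_left h4 h0
  refine h3.trans (h10.trans (le_of_eq ?_))
  ring

private theorem chi_aux {p : ℝ} (h0 : 0 ≤ p) (h1 : p ≤ 1)
    (hφ : ∀ S : Finset (Fin d → ℤ), (0 : Fin d → ℤ) ∈ S → 1 ≤ phi (Zg d) p 0 S) (r : ℕ) :
    1 ≤ 2 * (d : ℝ) * ∑ y ∈ ((Zg d).Lam r).filter (fun y => nrm y = r),
      (Zg d).tauD p ((Zg d).Lam r) 0 y := by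
  have h2 := sphere_sum h0 h1 hφ r
  have h3 : 0 ≤ ∑ y ∈ ((Zg d).Lam r).filter (fun y => nrm y = r),
      (Zg d).tauD p ((Zg d).Lam r) 0 y :=
    Finset.sum_nonneg fun y _ => T.tauD_nonneg (Zg d) h0 h1 _ 0 y
  refine h2.trans (mul_le_mul_of_nonneg_right ?_ h3)
  have h4 : (0 : ℝ) ≤ 2 * d := by positivity
  nlinarith

private theorem chi_dpos {p : ℝ} (h0 : 0 ≤ p) (h1 : p ≤ 1)
    (hφ : ∀ S : Finset (Fin d → ℤ), (0 : Fin d → ℤ) ∈ S → 1 ≤ phi (Zg d) p 0 S) : 0 < (d : ℝ) := by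
  rcases (Nat.cast_nonneg d : (0 : ℝ) ≤ d).eq_or_lt with h | h
  · have h2 := chi_aux h0 h1 hφ 0
    rw [← h, mul_zero, zero_mul] at h2
    linarith
  · exact h

theorem sphere_exists {p : ℝ} (h0 : 0 ≤ p) (h1 : p ≤ 1)
    (hφ : ∀ S : Finset (Fin d → ℤ), (0 : Fin d → ℤ) ∈ S → 1 ≤ phi (Zg d) p 0 S) (r : ℕ) :
    ∃ y : Fin d → ℤ, nrm y = r ∧
      1 / (2 * (d : ℝ) * (2 * (r : ℝ) + 1) ^ d) ≤ (Zg d).tauD p ((Zg d).Lam r) 0 y := by
  have hd := chi_dpos h0 h1 hφ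
  have h2 := chi_aux h0 h1 hφ r
  have hr : 0 < (2 * (r : ℝ) + 1) ^ d := by positivity
  have hne : (((Zg d).Lam r).filter (fun y => nrm y = r)).Nonempty := by
    by_contra h
    rw [Finset.not_nonempty_iff_eq_empty] at h
    rw [h, Finset.sum_empty, mul_zero] at h2
    linarith
  have h3 : ∑ _y ∈ ((Zg d).Lam r).filter (fun y => nrm y = r), 1 / (2 * (d : ℝ) * (2 * (r : ℝ) + 1) ^ d) ≤
      ∑ y ∈ ((Zg d).Lam r).filter (fun y => nrm y = r), (Zg d).tauD p ((Zg d).Lam r) 0 y := by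
    rw [Finset.sum_const, nsmul_eq_mul]
    have h4 : ((((Zg d).Lam r).filter (fun y => nrm y = r)).card : ℝ) ≤ (2 * (r : ℝ) + 1) ^ d := by
      have h5 : (((Zg d).Lam r).filter (fun y => nrm y = r)).card ≤ (2 * r + 1) ^ d :=
        (Finset.card_le_card (Finset.filter_subset _ _)).trans (card_Lam r).le
      exact_mod_cast h5
    have h6 : (2 * (r : ℝ) + 1) ^ d * (1 / (2 * (d : ℝ) * (2 * (r : ℝ) + 1) ^ d)) = 1 / (2 * d) := by
      field_simp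
    refine (mul_le_mul_of_nonneg_right h4 (by positivity)).trans ?_
    rw [h6, div_le_iff₀ (by positivity)]
    linarith
  obtain ⟨y, hy, hy'⟩ := Finset.exists_le_of_sum_le hne h3
  exact ⟨y, (Finset.mem_filter.1 hy).2, hy'⟩

theorem chi_large {p : ℝ} (h0 : 0 ≤ p) (h1 : p ≤ 1)
    (hφ : ∀ S : Finset (Fin d → ℤ), (0 : Fin d → ℤ) ∈ S → 1 ≤ phi (Zg d) p 0 S) (M : ℝ) :
    ∃ s : Finset (Fin d → ℤ), M ≤ ∑ y ∈ s, (Zg d).tau p 0 y := by
  have hd := chi_dpos h0 h1 hφ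
  obtain ⟨N, hN⟩ := exists_nat_ge (M * (2 * d))
  refine ⟨(Zg d).Lam N, ?_⟩
  have h2 : ∑ r ∈ Finset.range (N + 1), ∑ y ∈ ((Zg d).Lam N).filter (fun y => nrm y = r),
      (Zg d).tau p 0 y = ∑ y ∈ (Zg d).Lam N, (Zg d).tau p 0 y := by
    refine Finset.sum_fiberwise_of_maps_to (fun y hy => ?_) _
    rw [mem_Lam] at hy
    exact Finset.mem_range.2 (Nat.lt_succ_of_le hy)
  rw [← h2]
  have h3 : ∀ r ∈ Finset.range (N + 1), 1 / (2 * (d : ℝ)) ≤
      ∑ y ∈ ((Zg d).Lam N).filter (fun y => nrm y = r), (Zg d).tau p 0 y := by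
    intro r hr
    rw [Finset.mem_range] at hr
    have h4 := chi_aux h0 h1 hφ r
    have h5 : ∑ y ∈ ((Zg d).Lam r).filter (fun y => nrm y = r), (Zg d).tauD p ((Zg d).Lam r) 0 y ≤
        ∑ y ∈ ((Zg d).Lam N).filter (fun y => nrm y = r), (Zg d).tau p 0 y := by
      refine (Finset.sum_le_sum fun y _ => T.tauD_le_tau (Zg d) h0 h1 _ 0 y).trans ?_
      refine Finset.sum_le_sum_of_subset_of_nonneg (fun y hy => ?_)
        fun y _ _ => T.tau_nonneg (Zg d) h0 h1 0 y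
      rw [Finset.mem_filter, mem_Lam] at hy ⊢
      exact ⟨by omega, hy.2⟩
    rw [div_le_iff₀ (by positivity)]
    have h6 := mul_le_mul_of_nonneg_left h5 (by positivity : (0 : ℝ) ≤ 2 * d)
    linarith
  have h7 := Finset.sum_le_sum h3
  rw [Finset.sum_const, Finset.card_range, nsmul_eq_mul] at h7
  refine le_trans ?_ h7
  rw [mul_one_div, le_div_iff₀ (by positivity)]
  push_cast
  linarith

theorem chi_large_left (hd : 1 ≤ d) (hpc : (Zg d).pc < 1 / 2) (M : ℝ) :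
    ∃ p1 : ℝ, 0 < p1 ∧ p1 < (Zg d).pc ∧ ∀ p : ℝ, p1 ≤ p → p ≤ 1 →
      ∃ s : Finset (Fin d → ℤ), M ≤ ∑ y ∈ s, (Zg d).tau p 0 y := by
  have hd0 : 0 < (d : ℝ) := by exact_mod_cast hd
  have hpos : 0 < (Zg d).pc := lt_of_lt_of_le (by positivity) (pc_pos hd)
  have hle : (Zg d).pc ≤ 1 := by linarith
  obtain ⟨s, hs⟩ := chi_large hpos.le hle (fun S hS => phi_pc hpc S hS) (M + 1)
  have h1 : Filter.Tendsto (fun p => ∑ y ∈ s, (Zg d).tau p 0 y)
      (nhdsWithin (Zg d).pc (Set.Iio (Zg d).pc)) (nhds (∑ y ∈ s, (Zg d).tau (Zg d).pc 0 y)) :=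
    tendsto_finsetSum s fun y _ => T.tau_leftcont (Zg d) hpos hle 0 y
  have h2 : ∀ᶠ p in nhdsWithin (Zg d).pc (Set.Iio (Zg d).pc), M < ∑ y ∈ s, (Zg d).tau p 0 y :=
    h1.eventually_const_lt (by linarith)
  have h3 : ∀ᶠ p in nhdsWithin (Zg d).pc (Set.Iio (Zg d).pc), p < (Zg d).pc :=
    self_mem_nhdsWithin
  have h4 : ∀ᶠ p in nhdsWithin (Zg d).pc (Set.Iio (Zg d).pc), 0 < p :=
    Filter.Eventually.filter_mono nhdsWithin_le_nhds (Ioi_mem_nhds hpos)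
  obtain ⟨p1, ⟨h5, h6⟩, h7⟩ := ((h2.and h3).and h4).exists
  refine ⟨p1, h7, h6, fun p hp hp1 => ⟨s, h5.le.trans ?_⟩⟩
  exact Finset.sum_le_sum fun y _ => T.tau_mono_p (Zg d) h7.le hp hp1 0 y

end IPC.S
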