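import Pool.Agent.Lib.MP_25e40f_pr.S.Phi

/-!
# Stream S, job Dec: exponential decay from `φ ≤ q` (about 80 lines)

`ρ : V → V → ℕ` with the triangle inequality; for every `x` there is a finite `S ∋ x`, contained in the `ρ`-ball of radius `R` around `x` together with the neighbours of its points, with `φ_p(x, S) ≤ q`.
`decay`: induction on `k` for all `x`.  `k = 0`: `tau_le_one`.  `k + 1`: `(k+1) R < ρ x v`, so `v ∉ S` (as `R < ρ x v`); `tau_crossing` and for `z ∈ nb y \ S`, `y ∈ S`: `ρ x z ≤ R`, so `k R < ρ z v` (`ρ x v ≤ ρ x z + ρ z v`) and `τ(z, v) ≤ q^k`; so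
`τ(x, v) ≤ ∑∑ τ_S(x, y) p q^k = φ q^k ≤ q^{k+1}` (`Finset.sum_mul`).
-/

set_option autoImplicit false

noncomputable section

open Finset
open scoped Classical

namespace IPC.S

variable {V : Type} [DecidableEq V] (G : PG V)

theorem decay {p q : ℝ} (h0 : 0 ≤ p) (h1 : p ≤ 1 / 2) (hq : 0 ≤ q) (ρ : V → V → ℕ) (R : ℕ)
    (htri : ∀ x y z, ρ x z ≤ ρ x y + ρ y z)
    (hS : ∀ x, ∃ S : Finset V, x ∈ S ∧ (∀ y ∈ S, ρ x y ≤ R) ∧
      (∀ y ∈ S, ∀ z ∈ G.nb y, ρ x z ≤ R) ∧ phi G p x S ≤ q)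
    (k : ℕ) (x v : V) (hv : k * R < ρ x v) : G.tau p x v ≤ q ^ k := by
  have h1' : p ≤ 1 := by linarith
  induction k generalizing x v with
  | zero =>
    rw [pow_zero]
    exact IPC.T.tau_le_one G h0 h1' x v
  | succ k ih =>
    obtain ⟨S, hxS, hSR, hnb, hphi⟩ := hS x
    have hkR : k * R + R < ρ x v := by
      have : (k + 1) * R = k * R + R := by ring
      omega
    have hvS : v ∉ S := by
      intro h
      have := hSR v h
      omega
    have hqk : 0 ≤ q ^ k := pow_nonneg hq k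
    calc G.tau p x v ≤ ∑ y ∈ S, ∑ z ∈ G.nb y \ S, G.tauD p S x y * p * G.tau p z v :=
          IPC.T.tau_crossing G h0 h1 hxS hvS
      _ ≤ ∑ y ∈ S, ∑ _z ∈ G.nb y \ S, G.tauD p S x y * p * q ^ k := by
          refine Finset.sum_le_sum fun y hy => Finset.sum_le_sum fun z hz => ?_
          have hz' : ρ x z ≤ R := hnb y hy z (Finset.mem_sdiff.1 hz).1
          have h2 := htri x z v
          have h3 : G.tau p z v ≤ q ^ k := ih z v (by omega)
          exact mul_le_mul_of_nonneg_left h3 (mul_nonneg (IPC.T.tauD_nonneg G h0 h1' S x y) h0)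
      _ = phi G p x S * q ^ k := by
          unfold phi
          rw [Finset.sum_mul]
          refine Finset.sum_congr rfl fun y _ => ?_
          rw [Finset.sum_mul]
      _ ≤ q * q ^ k := mul_le_mul_of_nonneg_right hphi hqk
      _ = q ^ (k + 1) := by rw [pow_succ]; ring

end IPC.S
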