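import Pool.Agent.Lib.MP_25e40f_pr.T.Iso

/-!
# Stream S, job Phi: the functional `φ_p(x, S)` (about 100 lines)

`phi G p x S = ∑_{y ∈ S} ∑_{z ∈ nb y \ S} τ_S(x, y) p`.
`phi_nonneg`, `phi_mono_p`: termwise (`tauD_nonneg`, `tauD_mono_p`, `mul_le_mul`).  `phi_zero`: `p = 0`.  `phi_continuous`: `continuous_finset_sum`, `tauD_continuous`.
`phi_iso`: `Finset.sum_image` (`φ` injective) for the sum over `S.image φ`; `G'.nb (φ y) \ S.image φ = (G.nb y \ S).image φ` (`hnb`, `ext`, every vertex is `φ z`, `z = φ.symm _`), `tauD_iso`.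
`phi_eq_card`: `∑_{z ∈ s} c = #s c`.
-/

set_option autoImplicit false

noncomputable section

open Finset
open scoped Classical

namespace IPC.S

variable {V V' : Type} [DecidableEq V] [DecidableEq V']

/-- `φ_p(x, S)` -/
def phi (G : PG V) (p : ℝ) (x : V) (S : Finset V) : ℝ :=
  ∑ y ∈ S, ∑ _z ∈ G.nb y \ S, G.tauD p S x y * p

variable (G : PG V) (G' : PG V')

theorem phi_nonneg {p : ℝ} (h0 : 0 ≤ p) (h1 : p ≤ 1) (x : V) (S : Finset V) : 0 ≤ phi G p x S := by
  unfold phi
  exact Finset.sum_nonneg fun y _ => Finset.sum_nonneg fun z _ =>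
    mul_nonneg (IPC.T.tauD_nonneg G h0 h1 S x y) h0

theorem phi_mono_p {p q : ℝ} (h0 : 0 ≤ p) (hpq : p ≤ q) (h1 : q ≤ 1) (x : V) (S : Finset V) :
    phi G p x S ≤ phi G q x S := by
  unfold phi
  exact Finset.sum_le_sum fun y _ => Finset.sum_le_sum fun z _ =>
    mul_le_mul (IPC.T.tauD_mono_p G h0 hpq h1 S x y) hpq h0
      (IPC.T.tauD_nonneg G (h0.trans hpq) h1 S x y)

theorem phi_zero (x : V) (S : Finset V) : phi G 0 x S = 0 := by
  unfold phi
  exact Finset.sum_eq_zero fun y _ => Finset.sum_eq_zero fun z _ => mul_zero _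

theorem phi_continuous (x : V) (S : Finset V) : Continuous fun p : ℝ => phi G p x S := by
  unfold phi
  exact continuous_finsetSum _ fun y _ => continuous_finsetSum _ fun z _ =>
    (IPC.T.tauD_continuous G S x y).mul continuous_id

theorem phi_eq_card (p : ℝ) (x : V) (S : Finset V) :
    phi G p x S = p * ∑ y ∈ S, ((G.nb y \ S).card : ℝ) * G.tauD p S x y := by
  unfold phi
  rw [Finset.mul_sum]
  refine Finset.sum_congr rfl fun y _ => ?_
  rw [Finset.sum_const, nsmul_eq_mul]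
  ring

theorem phi_iso (p : ℝ) (φ : V ≃ V') (hnb : ∀ a b, b ∈ G.nb a ↔ φ b ∈ G'.nb (φ a))
    (x : V) (S : Finset V) : phi G' p (φ x) (S.image φ) = phi G p x S := by
  unfold phi
  rw [Finset.sum_image (fun a _ b _ h => φ.injective h)]
  refine Finset.sum_congr rfl fun y _ => ?_
  have h1 : G'.nb (φ y) \ S.image φ = (G.nb y \ S).image φ := by
    ext z
    obtain ⟨w, rfl⟩ := φ.surjective z
    rw [Finset.mem_sdiff, Finset.mem_image, Finset.mem_image]
    constructor
    · rintro ⟨h2, h3⟩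
      refine ⟨w, ?_, rfl⟩
      rw [Finset.mem_sdiff]
      exact ⟨(hnb y w).2 h2, fun h4 => h3 ⟨w, h4, rfl⟩⟩
    · rintro ⟨v, hv, hvw⟩
      have h2 := φ.injective hvw
      subst h2
      rw [Finset.mem_sdiff] at hv
      refine ⟨(hnb y v).1 hv.1, ?_⟩
      rintro ⟨u, hu, huv⟩
      have h3 := φ.injective huv
      subst h3
      exact hv.2 hu
  rw [h1, Finset.sum_const, Finset.sum_const, Finset.card_image_of_injective _ φ.injective,
    IPC.T.tauD_iso G G' p φ hnb S x y]

end IPC.S
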