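import Pool.Agent.Lib.MP_25e40f_pr.S.Bdy
import Pool.Agent.Lib.MP_25e40f_pr.S.Phi
import Pool.Agent.Lib.MP_25e40f_pr.A.Rus

/-!
# Stream S, job Dif: the differential inequality of Duminil-Copin and Tassion (about 170 lines)

`E = touch D`, `x ∈ D`, `A ω = ∃ w, w ∉ D ∧ Conn ω x w`, `θ(p) = Pr p E A`.
`piv_det`: for `ω ⊆ E`: `∑_{S ⊆ D, x ∈ S} ind (blk D ω = S) ∑_{y ∈ S} ∑_{z ∈ nb y \ S} ind (Conn (ω ∩ ein S) x y) ≤ ∑_{e ∈ E} ind (e ∉ ω ∧ ¬ A ω ∧ A (insert e ω))`.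
  Only `S = blk D ω` contributes (`Finset.sum_eq_single`, or: if `x ∉ blk D ω` the left side is `0`).  Then `Conn (ω ∩ ein S) x y ↔ Conn ω x y` (`blk_conn`).  The map `(y, z) ↦ s(y, z)` on the pairs with `y ∈ S`, `z ∈ nb y \ S`, `Conn ω x y` is injective
  (`Sym2.eq_iff`, `y ∈ S`, `z ∉ S`) with values in `{e ∈ E | e ∉ ω, ¬ A ω, A (insert e ω)}` (`blk_pivotal`; `¬ A ω` by `x ∈ blk D ω`): compare cardinalities (`Finset.card_le_card_of_injOn`; the sums of indicators are cardinalities; `Finset.sum_sigma`).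
`piv_sum`: take `EE p E`; `EE p E (ind (blk D ω = S) * ind (Conn (ω ∩ ein S) x y)) = Pr p E (blk D ω = S) * τ_S(x, y)`: `Pr_indep` with `E₁ = E \ ein S`, `E₂ = ein S ⊆ touch D` (`S ⊆ D`; `ein_subset_touch`, `touch_mono`), `blk_iff`; and
  `Pr p E (fun ω => Conn (ω ∩ ein S) x y) = tauD p S x y` (`Pr_restrict`, `Pr_congr`).
`sum_blk`: `∑_{S ⊆ D, x ∈ S} Pr p E (blk D ω = S) = Pr p E (x ∈ blk D ω) = 1 - θ` (`Pr_exists_eq`, `Pr_not`, `mem_blk`).
`theta_deriv`: `russo` with `A` increasing; the derivative is `(1-p)⁻¹ ∑_e ...≥ (1-p)⁻¹ ∑_{S ∋ x} Pr(blk = S) ∑∑ τ_S(x,y) = (1-p)⁻¹ p⁻¹ ∑_S Pr(blk = S) φ_p(x, S) ≥ (1-p)⁻¹ p⁻¹ (1 - θ)`.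
-/

set_option autoImplicit false

noncomputable section

open Finset
open scoped Classical

namespace IPC.S

variable {V : Type} [DecidableEq V] (G : PG V)

/-- `x` is connected to the outside of `D` -/
def esc (D : Finset V) (x : V) (ω : Finset (Sym2 V)) : Prop := ∃ w, w ∉ D ∧ Conn ω x w

theorem esc_inc (D : Finset V) (x : V) : Inc (esc D x) := by
  rintro ω ω' h ⟨w, hw, hc⟩
  exact ⟨w, hw, Conn_mono h hc⟩

private theorem Dif_card {κ : Type} (s : Finset κ) (P : κ → Prop) :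
    ∑ e ∈ s, ind (P e) = ((s.filter P).card : ℝ) := by
  unfold ind
  rw [Finset.sum_boole]

theorem piv_det {D : Finset V} {ω : Finset (Sym2 V)} (hω : ω ⊆ G.touch D) (x : V) :
    ∑ S ∈ D.powerset.filter (fun S => x ∈ S), ind (blk D ω = S) *
        ∑ y ∈ S, ∑ _z ∈ G.nb y \ S, ind (Conn (ω ∩ G.ein S) x y) ≤
      ∑ e ∈ G.touch D, ind (e ∉ ω ∧ ¬ esc D x ω ∧ esc D x (insert e ω)) := by
  have hR : 0 ≤ ∑ e ∈ G.touch D, ind (e ∉ ω ∧ ¬ esc D x ω ∧ esc D x (insert e ω)) :=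
    Finset.sum_nonneg fun _ _ => ind_nonneg _
  by_cases hx : x ∈ blk D ω
  · rw [Finset.sum_eq_single (blk D ω)]
    · rw [ind_of rfl, one_mul]
      have h1 : ∑ y ∈ blk D ω, ∑ _z ∈ G.nb y \ blk D ω, ind (Conn (ω ∩ G.ein (blk D ω)) x y) =
          ∑ q ∈ (blk D ω).sigma (fun y => G.nb y \ blk D ω), ind (Conn ω x q.1) := by
        rw [Finset.sum_sigma]
        refine Finset.sum_congr rfl fun y _ => Finset.sum_congr rfl fun z _ => ?_
        have h2 : (Conn (ω ∩ G.ein (blk D ω)) x y) = (Conn ω x y) :=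
          propext (blk_conn G hω rfl hx y).symm
        rw [h2]
      rw [h1]
      have h5 := Dif_card ((blk D ω).sigma (fun y => G.nb y \ blk D ω)) (fun q => Conn ω x q.1)
      have h6 := Dif_card (G.touch D) (fun e => e ∉ ω ∧ ¬ esc D x ω ∧ esc D x (insert e ω))
      rw [h5, h6]
      refine Nat.cast_le.mpr ?_
      apply Finset.card_le_card_of_injOn (fun q => s(q.1, q.2))
      · intro q hq
        have hq' := Finset.mem_filter.mp hq
        have hq1 := Finset.mem_sigma.mp hq'.1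
        have hq2 := Finset.mem_sdiff.mp hq1.2
        obtain ⟨g1, g2, g3⟩ := blk_pivotal G hx hq1.1 hq'.2 hq2.1 hq2.2
        refine (@Finset.mem_filter _ _ (fun _ => Classical.propDecidable _) _ _).mpr ⟨g1, g2, ?_, g3⟩
        rintro ⟨w, hw, hc⟩
        exact hw ((mem_blk.mp hx).2 w hc)
      · intro q hq q' hq' he
        have hq1 := Finset.mem_filter.mp hq
        have hq2 := Finset.mem_sigma.mp hq1.1
        have hq1' := Finset.mem_filter.mp hq'
        have hq2' := Finset.mem_sigma.mp hq1'.1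
        rcases Sym2.eq_iff.mp he with h | h
        · obtain ⟨a, b⟩ := q
          obtain ⟨a', b'⟩ := q'
          obtain ⟨h4, h5⟩ := h
          simp only at h4 h5
          subst h4
          subst h5
          rfl
        · exfalso
          have h4 := (Finset.mem_sdiff.mp hq2'.2).2
          rw [← h.1] at h4
          exact h4 hq2.1
    · intro S _ hS
      rw [ind_not (fun h => hS h.symm), zero_mul]
    · intro h
      exfalso
      apply h
      refine Finset.mem_filter.mpr ⟨Finset.mem_powerset.mpr ?_, hx⟩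
      intro y hy
      exact (mem_blk.mp hy).1
  · refine le_trans (le_of_eq ?_) hR
    apply Finset.sum_eq_zero
    intro S hS
    have hS' := Finset.mem_filter.mp hS
    rw [ind_not (fun h => hx (by rw [h]; exact hS'.2)), zero_mul]

private theorem Dif_indep (p : ℝ) (D : Finset V) {S : Finset V} (hS : S ⊆ D) (x y : V) :
    Pr p (G.touch D) (fun ω => blk D ω = S) * G.tauD p S x y =
      EE p (G.touch D) (fun ω => ind (blk D ω = S) * ind (Conn (ω ∩ G.ein S) x y)) := by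
  have h2 : G.ein S ⊆ G.touch D := (T.ein_subset_touch G S).trans (T.touch_mono G hS)
  have hB : ∀ ω, ω ⊆ G.touch D → (Conn (ω ∩ G.ein S) x y ↔ Conn ((ω ∩ G.ein S) ∩ G.ein S) x y) := by
    intro ω _
    rw [Finset.inter_assoc, Finset.inter_self]
  have h := Pr_indep p (E₁ := G.touch D \ G.ein S) (E₂ := G.ein S) (E := G.touch D)
    Finset.sdiff_subset h2 Finset.sdiff_disjoint (fun ω => blk D ω = S)
    (fun ω => Conn (ω ∩ G.ein S) x y) (fun ω hω => blk_iff G hω S) hB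
  have h3 : Pr p (G.touch D) (fun ω => Conn (ω ∩ G.ein S) x y) = G.tauD p S x y := by
    rw [Pr_restrict p h2 _ hB]
    refine Pr_congr p _ fun ω hω => ?_
    rw [Finset.inter_eq_left.mpr hω]
  rw [h3] at h
  rw [← h]
  refine EE_congr p _ fun ω _ => ?_
  rw [ind_and]

theorem piv_sum {p : ℝ} (h0 : 0 ≤ p) (h1 : p ≤ 1) (D : Finset V) (x : V) :
    ∑ S ∈ D.powerset.filter (fun S => x ∈ S), Pr p (G.touch D) (fun ω => blk D ω = S) *
        ∑ y ∈ S, ∑ _z ∈ G.nb y \ S, G.tauD p S x y ≤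
      ∑ e ∈ G.touch D, Pr p (G.touch D) (fun ω => e ∉ ω ∧ ¬ esc D x ω ∧ esc D x (insert e ω)) := by
  have hL : ∑ S ∈ D.powerset.filter (fun S => x ∈ S), Pr p (G.touch D) (fun ω => blk D ω = S) *
        ∑ y ∈ S, ∑ _z ∈ G.nb y \ S, G.tauD p S x y =
      EE p (G.touch D) (fun ω => ∑ S ∈ D.powerset.filter (fun S => x ∈ S), ind (blk D ω = S) *
        ∑ y ∈ S, ∑ _z ∈ G.nb y \ S, ind (Conn (ω ∩ G.ein S) x y)) := by
    rw [EE_sum]
    refine Finset.sum_congr rfl fun S hS => ?_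
    have hSD : S ⊆ D := Finset.mem_powerset.mp (Finset.mem_filter.mp hS).1
    have e1 : (fun ω : Finset (Sym2 V) => ind (blk D ω = S) *
        ∑ y ∈ S, ∑ _z ∈ G.nb y \ S, ind (Conn (ω ∩ G.ein S) x y)) =
        fun ω => ∑ y ∈ S, ∑ _z ∈ G.nb y \ S, ind (blk D ω = S) * ind (Conn (ω ∩ G.ein S) x y) := by
      funext ω
      rw [Finset.mul_sum]
      refine Finset.sum_congr rfl fun y _ => ?_
      rw [Finset.mul_sum]
    rw [e1, EE_sum, Finset.mul_sum]
    refine Finset.sum_congr rfl fun y _ => ?_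
    rw [EE_sum, Finset.mul_sum]
    refine Finset.sum_congr rfl fun z _ => ?_
    exact Dif_indep G p D hSD x y
  have hRt : ∑ e ∈ G.touch D, Pr p (G.touch D)
      (fun ω => e ∉ ω ∧ ¬ esc D x ω ∧ esc D x (insert e ω)) =
      EE p (G.touch D) (fun ω => ∑ e ∈ G.touch D,
        ind (e ∉ ω ∧ ¬ esc D x ω ∧ esc D x (insert e ω))) := by
    rw [EE_sum]
    rfl
  rw [hL, hRt]
  exact EE_mono h0 h1 _ fun ω hω => piv_det G hω x

theorem sum_blk (p : ℝ) {D : Finset V} {x : V} (hx : x ∈ D) :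
    ∑ S ∈ D.powerset.filter (fun S => x ∈ S), Pr p (G.touch D) (fun ω => blk D ω = S) =
      1 - Pr p (G.touch D) (esc D x) := by
  have h1 := Pr_exists_eq p (G.touch D) (D.powerset.filter (fun S => x ∈ S))
    (fun S ω => blk D ω = S) (fun ω _ S _ T _ h1 h2 => h1.symm.trans h2)
  rw [← h1, ← Pr_not]
  refine Pr_congr p _ fun ω _ => ?_
  constructor
  · rintro ⟨S, hS, hb⟩ ⟨w, hw, hc⟩
    have hxS := (Finset.mem_filter.mp hS).2
    rw [← hb] at hxS
    exact hw ((mem_blk.mp hxS).2 w hc)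
  · intro h
    refine ⟨blk D ω, Finset.mem_filter.mpr ⟨Finset.mem_powerset.mpr ?_, ?_⟩, rfl⟩
    · intro y hy
      exact (mem_blk.mp hy).1
    · refine mem_blk.mpr ⟨hx, fun z hz => ?_⟩
      by_contra hcon
      exact h ⟨z, hcon, hz⟩

theorem theta_deriv {p : ℝ} (h0 : 0 < p) (h1 : p < 1) {D : Finset V} {x : V} (hx : x ∈ D)
    (hφ : ∀ S : Finset V, x ∈ S → 1 ≤ phi G p x S) :
    ∃ θ' : ℝ, HasDerivAt (fun q : ℝ => Pr q (G.touch D) (esc D x)) θ' p ∧
      (1 - Pr p (G.touch D) (esc D x)) / (p * (1 - p)) ≤ θ' := by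
  refine ⟨_, russo (G.touch D) (esc D x) (esc_inc D x) p h1, ?_⟩
  have h1' : 0 < 1 - p := by linarith
  have e1 : (1 - Pr p (G.touch D) (esc D x)) / (p * (1 - p)) =
      (1 - p)⁻¹ * ∑ S ∈ D.powerset.filter (fun S => x ∈ S),
        Pr p (G.touch D) (fun ω => blk D ω = S) * p⁻¹ := by
    rw [← Finset.sum_mul, sum_blk G p hx]
    field_simp
  rw [e1]
  apply mul_le_mul_of_nonneg_left _ (inv_nonneg.mpr h1'.le)
  refine le_trans ?_ (piv_sum G h0.le h1.le D x)
  refine Finset.sum_le_sum fun S hS => ?_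
  apply mul_le_mul_of_nonneg_left _ (Pr_nonneg h0.le h1.le _ _)
  have h2 := hφ S (Finset.mem_filter.mp hS).2
  have h3 : phi G p x S = (∑ y ∈ S, ∑ _z ∈ G.nb y \ S, G.tauD p S x y) * p := by
    unfold phi
    rw [Finset.sum_mul]
    refine Finset.sum_congr rfl fun y _ => ?_
    rw [Finset.sum_mul]
  rw [h3] at h2
  rw [inv_le_iff_one_le_mul₀ h0]
  exact h2

end IPC.S
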