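import Pool.Agent.Lib.MP_25e40f_pr.S.Chi

/-!
# Stream S, job LowA: connections to `2 r e_i` (about 130 lines)

`c = 1 / (2 d (2r+1)^d)`.
`face`: by `sphere_exists` some `y`, `nrm y = r`, `τ_{Lam r}(0, y) ≥ c`; some coordinate has `|y j| = r` (if `d ≥ 1`; `nrm` is attained: `Finset.exists_mem_eq_sup`).  Apply the permutation `Equiv.swap i j` and, if the coordinate is `-r`, the reflection
`reflZ i 0`: both preserve `0`, `Lam r` (`nrm_perm`, `nrm_refl_zero`: `(Lam r).image φ = Lam r`, by `ext`, `φ` bijective) and the graph (`nb_perm`, `nb_refl`), so `tauD_iso` gives a point `y` with `y i = r`, `nrm y ≤ r`.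
`low_even`: let `φ = reflZ i r`: `φ y = y` (as `2 r - y i = y i`), `φ 0 = 2 r e_i` (`Pi.single i (2 r)`, or `Function.update 0 i (2 r)`).  `tauD_iso`: `τ_{φ(Lam r)}(φ 0, φ y) = τ_{Lam r}(0, y) ≥ c`, `φ (Lam r) ⊆ Lam (3 r)` (`|2 r - z i| ≤ 3 r`).  In `Lam (3r)`:
`τ(0, 2r e_i) ≥ τ(0, y) τ(y, 2 r e_i) ≥ c²` (`tauD_trans`, `tauD_mono_D`, `tauD_symm`).
-/

set_option autoImplicit false

noncomputable section

open Finset
open scoped Classical

namespace IPC.S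

variable {d : ℕ}

private theorem lowA_image (φ : (Fin d → ℤ) ≃ (Fin d → ℤ)) (hφ : ∀ x, nrm (φ x) = nrm x) (r : ℕ) :
    ((Zg d).Lam r).image φ = (Zg d).Lam r := by
  ext z
  rw [Finset.mem_image]
  constructor
  · rintro ⟨x, hx, rfl⟩
    rw [mem_Lam] at hx ⊢
    rw [hφ]
    exact hx
  · intro hz
    refine ⟨φ.symm z, ?_, φ.apply_symm_apply z⟩
    rw [mem_Lam] at hz ⊢
    rw [← hφ, φ.apply_symm_apply]
    exact hz

theorem face {p : ℝ} (h0 : 0 ≤ p) (h1 : p ≤ 1)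
    (hφ : ∀ S : Finset (Fin d → ℤ), (0 : Fin d → ℤ) ∈ S → 1 ≤ phi (Zg d) p 0 S) (r : ℕ)
    (i : Fin d) :
    ∃ y : Fin d → ℤ, nrm y ≤ r ∧ y i = (r : ℤ) ∧
      1 / (2 * (d : ℝ) * (2 * (r : ℝ) + 1) ^ d) ≤ (Zg d).tauD p ((Zg d).Lam r) 0 y := by
  obtain ⟨y, hy, hc⟩ := sphere_exists h0 h1 hφ r
  obtain ⟨j, _, hj⟩ := Finset.exists_mem_eq_sup (Finset.univ : Finset (Fin d)) ⟨i, Finset.mem_univ i⟩
    (fun k => (y k).natAbs)
  have hj' : (y j).natAbs = r := by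
    rw [← hy]
    exact hj.symm
  have h2 := T.tauD_iso (Zg d) (Zg d) p (permZ (Equiv.swap i j)) (nb_perm (Equiv.swap i j)) ((Zg d).Lam r) 0 y
  rw [lowA_image (permZ (Equiv.swap i j)) (nrm_perm _) r] at h2
  have h3 : permZ (Equiv.swap i j) (0 : Fin d → ℤ) = 0 := by
    funext k
    rfl
  rw [h3] at h2
  have h4 : permZ (Equiv.swap i j) y i = y j := by
    show y (Equiv.swap i j i) = y j
    rw [Equiv.swap_apply_left]
  have h5 : nrm (permZ (Equiv.swap i j) y) = r := by rw [nrm_perm, hy]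
  rcases Int.natAbs_eq (y j) with h6 | h6
  · refine ⟨permZ (Equiv.swap i j) y, h5.le, ?_, ?_⟩
    · rw [h4, h6, hj']
    · rw [h2]
      exact hc
  · refine ⟨reflZ i 0 (permZ (Equiv.swap i j) y), ?_, ?_, ?_⟩
    · rw [nrm_refl_zero]
      exact h5.le
    · show Function.update (permZ (Equiv.swap i j) y) i (2 * 0 - permZ (Equiv.swap i j) y i) i = (r : ℤ)
      rw [Function.update_self, h4, h6, hj']
      ring
    · have h7 := T.tauD_iso (Zg d) (Zg d) p (reflZ i 0) (nb_refl i 0) ((Zg d).Lam r) 0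
        (permZ (Equiv.swap i j) y)
      rw [lowA_image (reflZ i 0) (nrm_refl_zero i) r] at h7
      have h8 : reflZ i 0 (0 : Fin d → ℤ) = 0 := by
        show Function.update (0 : Fin d → ℤ) i (2 * 0 - (0 : Fin d → ℤ) i) = 0
        funext k
        by_cases hk : k = i
        · subst hk
          simp
        · rw [Function.update_of_ne hk]
      rw [h8] at h7
      rw [h7, h2]
      exact hc

theorem low_even {p : ℝ} (h0 : 0 ≤ p) (h1 : p ≤ 1)
    (hφ : ∀ S : Finset (Fin d → ℤ), (0 : Fin d → ℤ) ∈ S → 1 ≤ phi (Zg d) p 0 S) (r : ℕ)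
    (i : Fin d) :
    (1 / (2 * (d : ℝ) * (2 * (r : ℝ) + 1) ^ d)) ^ 2 ≤
      (Zg d).tauD p ((Zg d).Lam (3 * r)) 0 (Pi.single i (2 * (r : ℤ))) := by
  obtain ⟨y, hy, hyi, hc⟩ := face h0 h1 hφ r i
  have hc0 : 0 ≤ 1 / (2 * (d : ℝ) * (2 * (r : ℝ) + 1) ^ d) := by positivity
  have hm : (Zg d).Lam r ⊆ (Zg d).Lam (3 * r) := by
    intro x hx
    rw [mem_Lam] at hx ⊢
    omega
  have h2 := T.tauD_iso (Zg d) (Zg d) p (reflZ i r) (nb_refl i r) ((Zg d).Lam r) 0 y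
  have h3 : reflZ i r y = y := by
    show Function.update y i (2 * (r : ℤ) - y i) = y
    rw [hyi, show 2 * (r : ℤ) - r = y i by rw [hyi]; ring, Function.update_eq_self]
  have h4 : reflZ i r (0 : Fin d → ℤ) = Pi.single i (2 * (r : ℤ)) := by
    show Function.update (0 : Fin d → ℤ) i (2 * (r : ℤ) - (0 : Fin d → ℤ) i) = Pi.single i (2 * (r : ℤ))
    rw [Pi.zero_apply, sub_zero]
    rfl
  rw [h3, h4] at h2
  have hm2 : ((Zg d).Lam r).image (reflZ i (r : ℤ)) ⊆ (Zg d).Lam (3 * r) := by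
    intro x hx
    rw [Finset.mem_image] at hx
    obtain ⟨z, hz, rfl⟩ := hx
    rw [mem_Lam, nrm_le] at hz ⊢
    intro j
    have hzj := hz j
    show (Function.update z i (2 * (r : ℤ) - z i) j).natAbs ≤ 3 * r
    by_cases hj : j = i
    · subst hj
      rw [Function.update_self]
      omega
    · rw [Function.update_of_ne hj]
      omega
  have h5 : 1 / (2 * (d : ℝ) * (2 * (r : ℝ) + 1) ^ d) ≤ (Zg d).tauD p ((Zg d).Lam (3 * r)) 0 y :=
    hc.trans (T.tauD_mono_D (Zg d) h0 h1 hm 0 y)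
  have h6 : 1 / (2 * (d : ℝ) * (2 * (r : ℝ) + 1) ^ d) ≤
      (Zg d).tauD p ((Zg d).Lam (3 * r)) y (Pi.single i (2 * (r : ℤ))) := by
    rw [T.tauD_symm]
    refine le_trans ?_ (T.tauD_mono_D (Zg d) h0 h1 hm2 _ _)
    rw [h2]
    exact hc
  refine le_trans ?_ (T.tauD_trans (Zg d) h0 h1 ((Zg d).Lam (3 * r)) 0 y (Pi.single i (2 * (r : ℤ))))
  rw [pow_two]
  exact mul_le_mul h5 h6 hc0 (hc0.trans h5)

end IPC.S
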