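import Pool.Agent.Lib.MP_25e40f_pr.T.Iso

/-!
# Stream S, job Nrm: the sup norm on `ℤᵈ`, boxes, translations, reflections, permutations (about 160 lines)

`nrm x = sup_i |x i|` as a natural number.

* `nrm_le`: `Finset.sup_le_iff`.  `mem_Lam`: unfold `Zg` (`show x ∈ Fintype.piFinset _ ↔ _`), `Fintype.mem_piFinset`, `Finset.mem_Icc`, `nrm_le`, `omega`.
* `nrm_add`: `Finset.sup_le`, `Int.natAbs_add_le`, `Finset.le_sup`.  `nrm_neg`: `Int.natAbs_neg`.  `nrm_sub_comm`: `nrm_neg (x - y)`, `neg_sub`.
* `nrm_nb`: `y = update x i (x i ± 1)` (`mem_nbZ`): `(y - x) j = ± 1` for `j = i`, `0` otherwise (`Function.update_self`, `update_of_ne`).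
* `card_Lam`: `Fintype.card_piFinset`, `Int.card_Icc`, `Finset.prod_const`, `Finset.card_univ`, `Fintype.card_fin`; `(r + 1 - (-r)).toNat = 2 r + 1`.
* `card_nb_le`: `Finset.card_image_le`, `Fintype.card_prod`.
* `nb_trans`: `mem_nbZ`; `update (a + x) i ((a + x) i + s) = a + update x i (x i + s)` (`funext j`, by cases `j = i`).
* `nb_perm`: `(fun i => x (σ i))`; `update x i t ∘ σ = update (x ∘ σ) (σ.symm i) t`.
* `nb_flip`: `flip k` changes the sign of the coordinate `k`.
* `reflZ k c`: `x ↦ update x k (2 c - x k)`, an involution; `nb_refl`.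
* `zconn`: it is enough to connect `x` to `x + k e_i`, `k : ℕ` and its inverse, and to induct over the coordinates; alternatively induction on `∑ i, (y i - x i).natAbs`: if it is `0` then `x = y`; otherwise some `y i ≠ x i`, and
  `x' = update x i (x i + 1)` or `update x i (x i - 1)` is a neighbour of `x` with a smaller sum (`Finset.sum_lt_sum`); `Relation.ReflTransGen.head`.
-/

set_option autoImplicit false

noncomputable section

open Finset
open scoped Classical

namespace IPC.S

/-- sup norm -/
def nrm {d : ℕ} (x : Fin d → ℤ) : ℕ := Finset.univ.sup fun i => (x i).natAbs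

variable {d : ℕ}

theorem nrm_le {x : Fin d → ℤ} {r : ℕ} : nrm x ≤ r ↔ ∀ i, (x i).natAbs ≤ r := by
  unfold nrm
  rw [Finset.sup_le_iff]
  exact ⟨fun h i => h i (Finset.mem_univ i), fun h i _ => h i⟩

theorem natAbs_le_nrm (x : Fin d → ℤ) (i : Fin d) : (x i).natAbs ≤ nrm x :=
  nrm_le.1 le_rfl i

theorem nrm_zero : nrm (0 : Fin d → ℤ) = 0 := by
  refine le_antisymm (nrm_le.2 fun i => ?_) (Nat.zero_le _)
  rw [Pi.zero_apply, Int.natAbs_zero]

theorem mem_Lam {x : Fin d → ℤ} {r : ℕ} : x ∈ (Zg d).Lam r ↔ nrm x ≤ r := by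
  show x ∈ (Fintype.piFinset fun _ : Fin d => Finset.Icc (-(r : ℤ)) r) ↔ nrm x ≤ r
  rw [Fintype.mem_piFinset, nrm_le]
  refine forall_congr' fun i => ?_
  rw [Finset.mem_Icc]
  omega

theorem nrm_add (x y : Fin d → ℤ) : nrm (x + y) ≤ nrm x + nrm y := by
  refine nrm_le.2 fun i => ?_
  have h1 := natAbs_le_nrm x i
  have h2 := natAbs_le_nrm y i
  have h3 := Int.natAbs_add_le (x i) (y i)
  rw [Pi.add_apply]
  omega

theorem nrm_neg (x : Fin d → ℤ) : nrm (-x) = nrm x := by
  unfold nrm
  refine Finset.sup_congr rfl fun i _ => ?_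
  rw [Pi.neg_apply, Int.natAbs_neg]

theorem nrm_sub_comm (x y : Fin d → ℤ) : nrm (x - y) = nrm (y - x) := by
  rw [← nrm_neg (y - x), neg_sub]

theorem nrm_sub_le (x y z : Fin d → ℤ) : nrm (x - z) ≤ nrm (x - y) + nrm (y - z) := by
  have h := nrm_add (x - y) (y - z)
  rwa [sub_add_sub_cancel] at h

private theorem mem_nb {x y : Fin d → ℤ} : y ∈ (Zg d).nb x ↔
    ∃ i : Fin d, ∃ s : ℤ, (s = 1 ∨ s = -1) ∧ y = Function.update x i (x i + s) :=
  mem_nbZ d x y

theorem nrm_nb {x y : Fin d → ℤ} (h : y ∈ (Zg d).nb x) : nrm (y - x) = 1 := by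
  obtain ⟨i, s, hs, rfl⟩ := mem_nb.1 h
  apply le_antisymm
  · refine nrm_le.2 fun j => ?_
    rw [Pi.sub_apply]
    by_cases hj : j = i
    · subst hj
      rw [Function.update_self]
      rcases hs with rfl | rfl <;> omega
    · rw [Function.update_of_ne hj]
      omega
  · have h1 := natAbs_le_nrm (Function.update x i (x i + s) - x) i
    rw [Pi.sub_apply, Function.update_self] at h1
    rcases hs with rfl | rfl <;> omega

theorem card_Lam (r : ℕ) : ((Zg d).Lam r).card = (2 * r + 1) ^ d := by
  show (Fintype.piFinset fun _ : Fin d => Finset.Icc (-(r : ℤ)) r).card = (2 * r + 1) ^ d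
  rw [Fintype.card_piFinset, Finset.prod_const, Finset.card_univ, Fintype.card_fin, Int.card_Icc]
  have : ((r : ℤ) + 1 - -(r : ℤ)).toNat = 2 * r + 1 := by omega
  rw [this]

theorem card_nb_le (x : Fin d → ℤ) : ((Zg d).nb x).card ≤ 2 * d := by
  show ((Finset.univ : Finset (Fin d × Bool)).image fun q =>
      Function.update x q.1 (x q.1 + if q.2 then 1 else -1)).card ≤ 2 * d
  refine Finset.card_image_le.trans ?_
  rw [Finset.card_univ, Fintype.card_prod, Fintype.card_fin, Fintype.card_bool, mul_comm]

/-- `x ↦ update x i (x i ± 1)` are neighbours -/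
theorem nb_update (x : Fin d → ℤ) (i : Fin d) {s : ℤ} (hs : s = 1 ∨ s = -1) :
    Function.update x i (x i + s) ∈ (Zg d).nb x :=
  mem_nb.2 ⟨i, s, hs, rfl⟩

theorem nb_trans (a x y : Fin d → ℤ) : y ∈ (Zg d).nb x ↔ a + y ∈ (Zg d).nb (a + x) := by
  rw [mem_nb, mem_nb]
  refine exists_congr fun i => exists_congr fun s => and_congr_right fun _ => ?_
  have h1 : Function.update (a + x) i ((a + x) i + s) = a + Function.update x i (x i + s) := by
    funext j
    show Function.update (a + x) i ((a + x) i + s) j = a j + Function.update x i (x i + s) j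
    by_cases hj : j = i
    · subst hj
      rw [Function.update_self, Function.update_self, Pi.add_apply, add_assoc]
    · rw [Function.update_of_ne hj, Function.update_of_ne hj, Pi.add_apply]
  rw [h1]
  exact (add_right_inj a).symm

/-- translation as an automorphism of `ℤᵈ` -/
theorem nb_addLeft (a : Fin d → ℤ) (x y : Fin d → ℤ) :
    y ∈ (Zg d).nb x ↔ Equiv.addLeft a y ∈ (Zg d).nb (Equiv.addLeft a x) := by
  rw [Equiv.coe_addLeft]
  exact nb_trans a x y

/-- permutation of the coordinates -/
def permZ (σ : Equiv.Perm (Fin d)) : (Fin d → ℤ) ≃ (Fin d → ℤ) where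
  toFun x := fun i => x (σ i)
  invFun x := fun i => x (σ.symm i)
  left_inv x := by funext i; simp
  right_inv x := by funext i; simp

theorem nb_perm (σ : Equiv.Perm (Fin d)) (x y : Fin d → ℤ) :
    y ∈ (Zg d).nb x ↔ permZ σ y ∈ (Zg d).nb (permZ σ x) := by
  rw [mem_nb, mem_nb]
  have key : ∀ (i : Fin d) (s : ℤ), Function.update (permZ σ x) i (permZ σ x i + s) =
      permZ σ (Function.update x (σ i) (x (σ i) + s)) := by
    intro i s
    funext j
    show Function.update (permZ σ x) i (permZ σ x i + s) j =
      Function.update x (σ i) (x (σ i) + s) (σ j)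
    by_cases hj : j = i
    · subst hj
      rw [Function.update_self, Function.update_self]
      rfl
    · rw [Function.update_of_ne hj, Function.update_of_ne (fun h => hj (σ.injective h))]
      rfl
  constructor
  · rintro ⟨i, s, hs, rfl⟩
    refine ⟨σ.symm i, s, hs, ?_⟩
    rw [key, Equiv.apply_symm_apply]
  · rintro ⟨i, s, hs, h⟩
    rw [key] at h
    exact ⟨σ i, s, hs, (permZ σ).injective h⟩

theorem nrm_perm (σ : Equiv.Perm (Fin d)) (x : Fin d → ℤ) : nrm (permZ σ x) = nrm x := by
  apply le_antisymm
  · exact nrm_le.2 fun i => natAbs_le_nrm x (σ i)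
  · refine nrm_le.2 fun i => ?_
    have h := natAbs_le_nrm (permZ σ x) (σ.symm i)
    have h2 : permZ σ x (σ.symm i) = x i := by
      show x (σ (σ.symm i)) = x i
      rw [Equiv.apply_symm_apply]
    rwa [h2] at h

/-- reflection of the coordinate `k` in the point `c` -/
def reflZ (k : Fin d) (c : ℤ) : (Fin d → ℤ) ≃ (Fin d → ℤ) where
  toFun x := Function.update x k (2 * c - x k)
  invFun x := Function.update x k (2 * c - x k)
  left_inv x := by simp
  right_inv x := by simp

private theorem refl_key (k : Fin d) (c : ℤ) (x : Fin d → ℤ) (i : Fin d) (s : ℤ) :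
    reflZ k c (Function.update x i (x i + s)) =
      Function.update (reflZ k c x) i (reflZ k c x i + (if i = k then -s else s)) := by
  funext j
  show Function.update (Function.update x i (x i + s)) k
      (2 * c - Function.update x i (x i + s) k) j =
    Function.update (Function.update x k (2 * c - x k)) i
      (Function.update x k (2 * c - x k) i + (if i = k then -s else s)) j
  by_cases hik : i = k
  · subst hik
    rw [if_pos rfl]
    by_cases hj : j = i
    · subst hj
      rw [Function.update_self, Function.update_self, Function.update_self, Function.update_self]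
      ring
    · rw [Function.update_of_ne hj, Function.update_of_ne hj, Function.update_of_ne hj,
        Function.update_of_ne hj]
  · rw [if_neg hik]
    by_cases hjk : j = k
    · subst hjk
      rw [Function.update_self, Function.update_of_ne (Ne.symm hik), Function.update_of_ne (Ne.symm hik),
        Function.update_self]
    · by_cases hji : j = i
      · subst hji
        rw [Function.update_of_ne hjk, Function.update_self, Function.update_self,
          Function.update_of_ne hjk]
      · rw [Function.update_of_ne hjk, Function.update_of_ne hji, Function.update_of_ne hji,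
          Function.update_of_ne hjk]

private theorem nb_refl_imp (k : Fin d) (c : ℤ) {x y : Fin d → ℤ} (h : y ∈ (Zg d).nb x) :
    reflZ k c y ∈ (Zg d).nb (reflZ k c x) := by
  obtain ⟨i, s, hs, rfl⟩ := mem_nb.1 h
  rw [mem_nb]
  refine ⟨i, if i = k then -s else s, ?_, refl_key k c x i s⟩
  by_cases hik : i = k
  · rw [if_pos hik]
    rcases hs with rfl | rfl
    · exact Or.inr rfl
    · exact Or.inl (neg_neg 1)
  · rw [if_neg hik]
    exact hs

theorem nb_refl (k : Fin d) (c : ℤ) (x y : Fin d → ℤ) :
    y ∈ (Zg d).nb x ↔ reflZ k c y ∈ (Zg d).nb (reflZ k c x) := by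
  refine ⟨nb_refl_imp k c, fun h => ?_⟩
  have h1 := nb_refl_imp k c h
  have h2 : ∀ z : Fin d → ℤ, reflZ k c (reflZ k c z) = z := fun z => (reflZ k c).left_inv z
  rwa [h2, h2] at h1

theorem nrm_refl_zero (k : Fin d) (x : Fin d → ℤ) : nrm (reflZ k 0 x) = nrm x := by
  have h : ∀ i, (reflZ k 0 x i).natAbs = (x i).natAbs := by
    intro i
    show (Function.update x k (2 * 0 - x k) i).natAbs = (x i).natAbs
    by_cases hi : i = k
    · subst hi
      rw [Function.update_self]
      omega
    · rw [Function.update_of_ne hi]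
  unfold nrm
  exact Finset.sup_congr rfl fun i _ => h i

/-- `ℤᵈ` is connected -/
theorem zconn (x y : Fin d → ℤ) : Relation.ReflTransGen (fun a b => b ∈ (Zg d).nb a) x y := by
  obtain ⟨n, hn⟩ : ∃ n : ℕ, ∑ i, (y i - x i).natAbs = n := ⟨_, rfl⟩
  induction n using Nat.strong_induction_on generalizing x with
  | _ n ih =>
    by_cases hxy : x = y
    · rw [hxy]
    · obtain ⟨i, hi⟩ : ∃ i, x i ≠ y i := by
        by_contra hcon
        push Not at hcon
        exact hxy (funext hcon)
      obtain ⟨s, hs, hlt⟩ : ∃ s : ℤ, (s = 1 ∨ s = -1) ∧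
          (y i - (x i + s)).natAbs < (y i - x i).natAbs := by
        rcases lt_or_gt_of_ne hi with h | h
        · exact ⟨1, Or.inl rfl, by omega⟩
        · exact ⟨-1, Or.inr rfl, by omega⟩
      have h1 : ∑ j, (y j - Function.update x i (x i + s) j).natAbs < n := by
        rw [← hn]
        refine Finset.sum_lt_sum ?_ ⟨i, Finset.mem_univ i, ?_⟩
        · intro j _
          by_cases hj : j = i
          · subst hj
            rw [Function.update_self]
            exact hlt.le
          · rw [Function.update_of_ne hj]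
        · rw [Function.update_self]
          exact hlt
      exact Relation.ReflTransGen.head (nb_update x i hs) (ih _ h1 _ rfl)

/-- translation invariance of finite volume probabilities -/
theorem tauD_trans_inv (p : ℝ) (a : Fin d → ℤ) (D : Finset (Fin d → ℤ)) (x y : Fin d → ℤ) :
    (Zg d).tauD p (D.image fun z => a + z) (a + x) (a + y) = (Zg d).tauD p D x y :=
  IPC.T.tauD_iso (Zg d) (Zg d) p (Equiv.addLeft a) (nb_addLeft a) D x y

theorem tau_trans_inv {p : ℝ} (h0 : 0 ≤ p) (h1 : p ≤ 1) (a x y : Fin d → ℤ) :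
    (Zg d).tau p (a + x) (a + y) = (Zg d).tau p x y :=
  IPC.T.tau_iso (Zg d) (Zg d) h0 h1 (Equiv.addLeft a) (nb_addLeft a) x y

end IPC.S
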