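import Pool.Agent.Lib.MP_25e40f_pr.S.Dif
import Pool.Agent.Lib.MP_25e40f_pr.T.Arm

/-!
# Stream S, job Ode: the mean field lower bound and sharpness (about 130 lines)

`mean_field`: for `t ∈ [p0, p]`, `φ_t(x, S) ≥ φ_{p0}(x, S) ≥ 1` (`phi_mono_p`), so `theta_deriv` holds at `t`.  `F(t) = (1 - θ(t)) t / (1 - t)` has the derivative `-θ'(t) t/(1-t) + (1 - θ(t)) / (1-t)² ≤ 0`; so `F(p) ≤ F(p0) ≤ p0/(1-p0)`
(`antitoneOn_of_deriv_nonpos` on `Icc p0 p`, convex; or `image_le_of_deriv_right_le_deriv_boundary`; `θ` is continuous: `Pr_continuous`; `θ(p0) ≥ 0`).  Hence `1 - θ(p) ≤ p0 (1-p) / (p (1-p0))`, and `1 - p0(1-p)/(p(1-p0)) = (p - p0)/(p(1-p0))`.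
`esc_le_arm`: `touch (Lam r) ⊆ ein (Lam (r+1))` (`touch_subset_ein_Lam`), `Pr_mono_E`, `arm_ge` with `T = {v | v ∉ Lam r}`.
`exists_phi_lt` (sharpness, any graph): suppose `1 ≤ φ_p(x, S)` for all `S ∋ x`.  `p > 0` by `phi_zero` (`S = {x}`).  Let `p' = (p + pc)/2`, `p < p' < pc ≤ 1`; `NoPerc p'` (`noPerc_of_lt`), so `arm p' x r → 0`; but for all large `r` (`x ∈ Lam r`):
`0 < (p' - p)/(p'(1-p)) ≤ Pr p' (touch (Lam r)) (esc (Lam r) x) ≤ arm p' x r`.  Contradiction.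
-/

set_option autoImplicit false

noncomputable section

open Finset
open scoped Classical

namespace IPC.S

variable {V : Type} [DecidableEq V] (G : PG V)

theorem mean_field {p0 p : ℝ} (h0 : 0 < p0) (hp : p0 ≤ p) (h1 : p < 1) {x : V}
    (hφ : ∀ S : Finset V, x ∈ S → 1 ≤ phi G p0 x S) {D : Finset V} (hx : x ∈ D) :
    (p - p0) / (p * (1 - p0)) ≤ Pr p (G.touch D) (esc D x) := by
  have hp0 : 0 < p := lt_of_lt_of_le h0 hp
  have h01 : p0 < 1 := lt_of_le_of_lt hp h1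
  have hder : ∀ t : ℝ, p0 ≤ t → t ≤ p → ∃ F' : ℝ,
      HasDerivAt (fun q : ℝ => (1 - Pr q (G.touch D) (esc D x)) * (q / (1 - q))) F' t ∧ F' ≤ 0 := by
    intro t ht0 ht1
    have ht : 0 < t := lt_of_lt_of_le h0 ht0
    have ht' : t < 1 := lt_of_le_of_lt ht1 h1
    have hne : (1 - t) ≠ 0 := by linarith
    obtain ⟨θ', hθ, hle⟩ := theta_deriv G ht ht' hx
      (fun S hS => (hφ S hS).trans (phi_mono_p G h0.le ht0 ht'.le x S))
    have hd1 : HasDerivAt (fun q : ℝ => q / (1 - q)) ((1 * (1 - t) - t * (-1)) / (1 - t) ^ 2) t :=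
      (hasDerivAt_id' t).div ((hasDerivAt_id' t).const_sub 1) hne
    refine ⟨_, (hθ.const_sub 1).mul hd1, ?_⟩
    have h2 : (1 - Pr t (G.touch D) (esc D x)) / (t * (1 - t)) * (t / (1 - t)) =
        (1 - Pr t (G.touch D) (esc D x)) * ((1 * (1 - t) - t * (-1)) / (1 - t) ^ 2) := by
      have : t ≠ 0 := ht.ne'
      field_simp
      ring
    have h3 : 0 ≤ t / (1 - t) := div_nonneg ht.le (by linarith)
    have h4 := mul_le_mul_of_nonneg_right hle h3
    rw [h2] at h4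
    linarith
  have hanti : AntitoneOn (fun q : ℝ => (1 - Pr q (G.touch D) (esc D x)) * (q / (1 - q)))
      (Set.Icc p0 p) := by
    refine antitoneOn_of_deriv_nonpos (convex_Icc p0 p) ?_ ?_ ?_
    · intro t ht
      obtain ⟨F', hF, _⟩ := hder t ht.1 ht.2
      exact hF.continuousAt.continuousWithinAt
    · intro t ht
      rw [interior_Icc] at ht
      obtain ⟨F', hF, _⟩ := hder t ht.1.le ht.2.le
      exact hF.differentiableAt.differentiableWithinAt
    · intro t ht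
      rw [interior_Icc] at ht
      obtain ⟨F', hF, hle⟩ := hder t ht.1.le ht.2.le
      rw [hF.deriv]
      exact hle
  have h2 : (1 - Pr p (G.touch D) (esc D x)) * (p / (1 - p)) ≤
      (1 - Pr p0 (G.touch D) (esc D x)) * (p0 / (1 - p0)) :=
    hanti (Set.left_mem_Icc.2 hp) (Set.right_mem_Icc.2 hp) hp
  have h3 : 0 ≤ Pr p0 (G.touch D) (esc D x) := Pr_nonneg h0.le h01.le _ _
  have hq : 0 < 1 - p := by linarith
  have hq0 : 0 < 1 - p0 := by linarith
  have h4 : (1 - Pr p0 (G.touch D) (esc D x)) * (p0 / (1 - p0)) ≤ p0 / (1 - p0) := by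
    have h5 : 0 ≤ p0 / (1 - p0) := div_nonneg h0.le hq0.le
    nlinarith [mul_nonneg h3 h5]
  have h5 := h2.trans h4
  have h6 : (1 - Pr p (G.touch D) (esc D x)) * p * (1 - p0) ≤ p0 * (1 - p) := by
    have h7 := mul_le_mul_of_nonneg_right h5 (mul_nonneg hq.le hq0.le)
    have e1 : (1 - Pr p (G.touch D) (esc D x)) * (p / (1 - p)) * ((1 - p) * (1 - p0)) =
        (1 - Pr p (G.touch D) (esc D x)) * p * (1 - p0) := by
      field_simp
    have e2 : p0 / (1 - p0) * ((1 - p) * (1 - p0)) = p0 * (1 - p) := by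
      field_simp
    rw [e1, e2] at h7
    exact h7
  rw [div_le_iff₀ (mul_pos hp0 hq0)]
  nlinarith

theorem esc_le_arm {p : ℝ} (h0 : 0 ≤ p) (h1 : p ≤ 1) {r : ℕ} {x : V} (hx : x ∈ G.Lam r) :
    Pr p (G.touch (G.Lam r)) (esc (G.Lam r) x) ≤ G.arm p x r := by
  have h2 : Pr p (G.touch (G.Lam r)) (esc (G.Lam r) x) ≤ Pr p (G.ein (G.Lam (r + 1))) (esc (G.Lam r) x) :=
    Pr_mono_E h0 h1 (IPC.T.touch_subset_ein_Lam G (Finset.Subset.refl _)) (esc_inc _ _)
  have h3 := IPC.T.arm_ge G h0 h1 (G.Lam (r + 1)) hx (T := {v | v ∉ G.Lam r}) (fun v hv => hv)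
  exact h2.trans h3

theorem exists_phi_lt {p : ℝ} (h0 : 0 ≤ p) (hp : p < G.pc) (x : V) :
    ∃ S : Finset V, x ∈ S ∧ phi G p x S < 1 := by
  by_contra hn
  push Not at hn
  have hp0 : 0 < p := by
    rcases h0.lt_or_eq with h | h
    · exact h
    · have h2 := hn {x} (Finset.mem_singleton_self x)
      rw [← h, phi_zero] at h2
      linarith
  have hpc := IPC.T.pc_le_one G
  have hp' : p < (p + G.pc) / 2 := by linarith
  have hp'' : (p + G.pc) / 2 < G.pc := by linarith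
  have hp1 : (p + G.pc) / 2 < 1 := by linarith
  have hno := IPC.T.noPerc_of_lt G (by linarith : 0 ≤ (p + G.pc) / 2) hp''
  have ht := hno x
  obtain ⟨r0, hr0⟩ := G.cover x
  have hmono : Monotone G.Lam := monotone_nat_of_le_succ G.mono
  have hc : ∀ r, r0 ≤ r → ((p + G.pc) / 2 - p) / ((p + G.pc) / 2 * (1 - p)) ≤ G.arm ((p + G.pc) / 2) x r := by
    intro r hr
    have hxr : x ∈ G.Lam r := hmono hr hr0
    exact (mean_field G hp0 hp'.le hp1 hn hxr).trans (esc_le_arm G (by linarith) hp1.le hxr)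
  have h2 : ((p + G.pc) / 2 - p) / ((p + G.pc) / 2 * (1 - p)) ≤ 0 :=
    ge_of_tendsto ht (Filter.eventually_atTop.2 ⟨r0, hc⟩)
  have h3 : 0 < ((p + G.pc) / 2 - p) / ((p + G.pc) / 2 * (1 - p)) :=
    div_pos (by linarith) (mul_pos (by linarith) (by linarith))
  linarith

end IPC.S
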