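import Pool.Agent.Lib.MP_25e40f_pr.S.Dec
import Pool.Agent.Lib.MP_25e40f_pr.S.Nrm

/-!
# Stream S, job Orb: exponential decay on `ℤᵈ` and on `ℤⁿ × H` from `φ < 1` at the representatives (about 150 lines)

`nbW_trans`: translations `(x, i) ↦ (a + x, i)` are automorphisms of `Wg n ι H`: unfold the definition of `nb` (membership in a union of two images, `nbZ` by `nb_trans`).
`wdecay`: for each `i : ι` choose `S_i ∋ (0, i)` with `φ_p((0,i), S_i) < 1`.  `q = max_i φ(S_i)` (`Finset.univ.sup'`, or `Finite`: there is `q < 1`, `0 ≤ q`, with all `φ(S_i) ≤ q`: if `ι` is empty nothing to prove), `R` = maximum of `nrm y.1` over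
`y ∈ S_i` and over the neighbours of the points of `S_i` (`Finset.sup` of `Finset.sup`).  For `x = (x1, i)` use `S = S_i.image τ`, `τ (y, j) = (x1 + y, j)`: `phi_iso`.  `ρ x y = nrm (y.1 - x.1)`; neighbours of `τ y` are `τ z`, `z ∈ nb y` (`nbW_trans`).  `decay`.
`zdecay`: the same on `ℤᵈ` (one representative `0`).
-/

set_option autoImplicit false

noncomputable section

open Finset
open scoped Classical

namespace IPC.S

private theorem Orb_core {V : Type} [DecidableEq V] (G : PG V) {κ : Type} [Fintype κ]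
    (rep : κ → V) (cls : V → κ) (τ : V → (V ≃ V)) (hτ : ∀ x, τ x (rep (cls x)) = x)
    (hnb : ∀ x a b, b ∈ G.nb a ↔ τ x b ∈ G.nb (τ x a)) (ρ : V → V → ℕ) (N : V → ℕ)
    (htri : ∀ x y z, ρ x z ≤ ρ x y + ρ y z) (hρ : ∀ x y, ρ x (τ x y) = N y)
    {p : ℝ} (h0 : 0 ≤ p) (h1 : p ≤ 1 / 2)
    (h : ∀ i : κ, ∃ S : Finset V, rep i ∈ S ∧ phi G p (rep i) S < 1) :
    ∃ q : ℝ, 0 ≤ q ∧ q < 1 ∧ ∃ R : ℕ, ∀ (k : ℕ) (x v : V),
      k * R < ρ x v → G.tau p x v ≤ q ^ k := by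
  choose S hS1 hS2 using h
  have hq : ∀ s : Finset κ, ∃ q : ℝ, 0 ≤ q ∧ q < 1 ∧ ∀ i ∈ s, phi G p (rep i) (S i) ≤ q := by
    intro s
    induction s using Finset.induction_on with
    | empty => exact ⟨0, le_rfl, one_pos, fun i hi => absurd hi (Finset.notMem_empty i)⟩
    | insert a s _ ih =>
      obtain ⟨q, hq0, hq1, hq2⟩ := ih
      refine ⟨max q (phi G p (rep a) (S a)), hq0.trans (le_max_left _ _), max_lt hq1 (hS2 a), ?_⟩
      intro i hi
      rcases Finset.mem_insert.1 hi with rfl | hi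
      · exact le_max_right _ _
      · exact (hq2 i hi).trans (le_max_left _ _)
  obtain ⟨q, hq0, hq1, hq2⟩ := hq Finset.univ
  set R : ℕ := Finset.univ.sup fun i : κ => max ((S i).sup N)
    ((S i).sup fun y => (G.nb y).sup N) with hR
  have hR1 : ∀ i, ∀ y ∈ S i, N y ≤ R := by
    intro i y hy
    have e1 : N y ≤ (S i).sup N := Finset.le_sup (f := N) hy
    have e2 : max ((S i).sup N) ((S i).sup fun y => (G.nb y).sup N) ≤ R :=
      Finset.le_sup (f := fun i : κ => max ((S i).sup N) ((S i).sup fun y => (G.nb y).sup N))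
        (Finset.mem_univ i)
    exact e1.trans ((le_max_left _ _).trans e2)
  have hR2 : ∀ i, ∀ y ∈ S i, ∀ z ∈ G.nb y, N z ≤ R := by
    intro i y hy z hz
    have e0 : N z ≤ (G.nb y).sup N := Finset.le_sup (f := N) hz
    have e1 : (G.nb y).sup N ≤ (S i).sup fun y => (G.nb y).sup N :=
      Finset.le_sup (f := fun y => (G.nb y).sup N) hy
    have e2 : max ((S i).sup N) ((S i).sup fun y => (G.nb y).sup N) ≤ R :=
      Finset.le_sup (f := fun i : κ => max ((S i).sup N) ((S i).sup fun y => (G.nb y).sup N))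
        (Finset.mem_univ i)
    exact e0.trans (e1.trans ((le_max_right _ _).trans e2))
  refine ⟨q, hq0, hq1, R, fun k x v hv => ?_⟩
  refine decay G h0 h1 hq0 ρ R htri (fun x => ?_) k x v hv
  refine ⟨(S (cls x)).image (τ x), ?_, ?_, ?_, ?_⟩
  · exact Finset.mem_image.2 ⟨rep (cls x), hS1 _, hτ x⟩
  · intro y hy
    obtain ⟨y', hy', rfl⟩ := Finset.mem_image.1 hy
    rw [hρ]
    exact hR1 _ y' hy'
  · intro y hy z hz
    obtain ⟨y', hy', rfl⟩ := Finset.mem_image.1 hy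
    have hz' : (τ x).symm z ∈ G.nb y' := by
      rw [hnb x, Equiv.apply_symm_apply]
      exact hz
    have h2 := hR2 _ y' hy' _ hz'
    rw [← hρ x, Equiv.apply_symm_apply] at h2
    exact h2
  · have h2 := phi_iso G G p (τ x) (hnb x) (rep (cls x)) (S (cls x))
    rw [hτ x] at h2
    rw [h2]
    exact hq2 _ (Finset.mem_univ _)

section W

variable {n : ℕ} {ι : Type} [Fintype ι] [DecidableEq ι] (H : SimpleGraph ι)

/-- translation of `ℤⁿ × ι` -/
def trW (ι : Type) {n : ℕ} (a : Fin n → ℤ) : ((Fin n → ℤ) × ι) ≃ ((Fin n → ℤ) × ι) where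
  toFun x := (a + x.1, x.2)
  invFun x := (-a + x.1, x.2)
  left_inv x := by simp
  right_inv x := by simp

theorem nbW_trans (a : Fin n → ℤ) (x y : (Fin n → ℤ) × ι) :
    y ∈ (Wg n ι H).nb x ↔ trW ι a y ∈ (Wg n ι H).nb (trW ι a x) := by
  obtain ⟨x1, x2⟩ := x
  obtain ⟨y1, y2⟩ := y
  show (y1, y2) ∈ (nbZ n x1).image (fun y => (y, x2)) ∪
      (Finset.univ.filter fun j => H.Adj x2 j).image (fun j => (x1, j)) ↔
    (a + y1, y2) ∈ (nbZ n (a + x1)).image (fun y => (y, x2)) ∪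
      (Finset.univ.filter fun j => H.Adj x2 j).image (fun j => (a + x1, j))
  simp only [Finset.mem_union, Finset.mem_image, Finset.mem_filter, Finset.mem_univ, true_and,
    Prod.mk.injEq]
  have hn : ∀ z, z ∈ nbZ n x1 ↔ a + z ∈ nbZ n (a + x1) := fun z => nb_trans a x1 z
  constructor
  · rintro (⟨z, hz, rfl, rfl⟩ | ⟨j, hj, rfl, rfl⟩)
    · exact Or.inl ⟨a + z, (hn z).1 hz, rfl, rfl⟩
    · exact Or.inr ⟨j, hj, rfl, rfl⟩
  · rintro (⟨z, hz, hz1, rfl⟩ | ⟨j, hj, hj1, rfl⟩)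
    · rw [hz1] at hz
      exact Or.inl ⟨y1, (hn y1).2 hz, rfl, rfl⟩
    · exact Or.inr ⟨j, hj, add_left_cancel hj1, rfl⟩

theorem wdecay {p : ℝ} (h0 : 0 ≤ p) (h1 : p ≤ 1 / 2)
    (h : ∀ i : ι, ∃ S : Finset ((Fin n → ℤ) × ι), ((0 : Fin n → ℤ), i) ∈ S ∧
      phi (Wg n ι H) p ((0 : Fin n → ℤ), i) S < 1) :
    ∃ q : ℝ, 0 ≤ q ∧ q < 1 ∧ ∃ R : ℕ, ∀ (k : ℕ) (x v : (Fin n → ℤ) × ι),
      k * R < nrm (v.1 - x.1) → (Wg n ι H).tau p x v ≤ q ^ k := by
  refine Orb_core (Wg n ι H) (fun i : ι => ((0 : Fin n → ℤ), i)) (fun x => x.2)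
    (fun x => trW ι x.1) (fun x => ?_) (fun x a b => nbW_trans H x.1 a b)
    (fun x y => nrm (y.1 - x.1)) (fun y => nrm y.1) (fun x y z => ?_) (fun x y => ?_) h0 h1 h
  · show (x.1 + 0, x.2) = x
    rw [add_zero]
  · have h2 := nrm_sub_le z.1 y.1 x.1
    show nrm (z.1 - x.1) ≤ nrm (y.1 - x.1) + nrm (z.1 - y.1)
    rw [add_comm]
    exact h2
  · show nrm (x.1 + y.1 - x.1) = nrm y.1
    rw [add_sub_cancel_left]

end W

theorem zdecay {d : ℕ} {p : ℝ} (h0 : 0 ≤ p) (h1 : p ≤ 1 / 2)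
    (h : ∃ S : Finset (Fin d → ℤ), (0 : Fin d → ℤ) ∈ S ∧ phi (Zg d) p 0 S < 1) :
    ∃ q : ℝ, 0 ≤ q ∧ q < 1 ∧ ∃ R : ℕ, ∀ (k : ℕ) (x v : Fin d → ℤ),
      k * R < nrm (v - x) → (Zg d).tau p x v ≤ q ^ k := by
  refine Orb_core (Zg d) (fun _ : Unit => (0 : Fin d → ℤ)) (fun _ => ())
    (fun x => Equiv.addLeft x) (fun x => ?_) (fun x a b => nb_addLeft x a b)
    (fun x y => nrm (y - x)) (fun y => nrm y) (fun x y z => ?_) (fun x y => ?_) h0 h1
    (fun _ => h)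
  · exact add_zero x
  · have h2 := nrm_sub_le z y x
    show nrm (z - x) ≤ nrm (y - x) + nrm (z - y)
    rw [add_comm]
    exact h2
  · show nrm (x + y - x) = nrm y
    rw [add_sub_cancel_left]

end IPC.S
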