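import Pool.Agent.Lib.MP_25e40f_pr.S.Nrm

/-!
# Stream S, job Sum: summation of exponentially decaying functions (about 130 lines)

`sum_nrm`: for `f : ℕ → ℝ` nonnegative: `∑_{v ∈ s} f (nrm v) ≤ ∑_{k ≤ N} (2k+1)^d f k` for every finite `s ⊆ Lam N` (`Finset.sum_fiberwise_of_maps_to` with `nrm`, the fibre over `k` is contained in `Lam k`, `card_Lam`).
`sum_exp_le`: `0 ≤ q < 1`.  There is `C` (depending on `d, q, R, m`) with `∑_{v ∈ s} (1 + nrm v)^m b v ≤ C` for all finite `s` and all `b` with `0 ≤ b v ≤ 1` and `b v ≤ q^k` whenever `k R < nrm v`.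
  We may assume `R ≥ 1` (replace `R` by `R + 1`) and `q > 0` (replace `q` by `(1+q)/2`).  For `nrm v = k`: take `j = (k - 1) / R` (natural division, `j R ≤ k - 1 < k` if `k ≥ 1`), `b v ≤ q^{(k-1)/R}` for `k ≥ 1` and `b v ≤ 1` for `k = 0`.
  So `C = 1 + ∑_k (1 + k)^m (2k+1)^d q^{(k-1)/R}`, convergent: `q^{(k-1)/R} ≤ q^{-1}... r^{k}` with `r = q^{1/(2R)}`; simplest: `(k - 1)/R ≥ (k - 1)/R - 1` as reals, so `q^{(k-1)/R} ≤ q^{-2} (q^{1/R})^{k}`; polynomial times geometric is summable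
  (`summable_pow_mul_geometric_of_norm_lt_one`).  Alternatively group `k` in blocks of length `R`.
`sum_exp_W`: the same on `ℤⁿ × ι`: sum over `ι`.
`tendsto_shell`: `(2 r + 3)^d q^{(r - c)/R} → 0` as `r → ∞` (natural subtraction and division), `R ≥ 1`.
-/

set_option autoImplicit false

noncomputable section

open Finset
open scoped Classical

namespace IPC.S

private theorem Sum_geo (R : ℕ) (hR : 1 ≤ R) {q : ℝ} (hq0 : 0 ≤ q) (hq1 : q < 1) :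
    ∃ s : ℝ, 0 < s ∧ s < 1 ∧ q ≤ s ^ R := by
  have hR1 : (1 : ℝ) ≤ R := by exact_mod_cast hR
  have hR2 : (0 : ℝ) < (R : ℝ) + 1 := by linarith
  have h1 : (1 - q) / ((R : ℝ) + 1) ≤ 1 / 2 := by
    rw [div_le_div_iff₀ hR2 (by norm_num)]
    nlinarith
  have h2 : 0 < (1 - q) / ((R : ℝ) + 1) := div_pos (by linarith) hR2
  refine ⟨1 - (1 - q) / ((R : ℝ) + 1), by linarith, by linarith, ?_⟩
  have h3 := one_add_mul_le_pow (a := -((1 - q) / ((R : ℝ) + 1))) (by linarith) R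
  have h4 : (R : ℝ) * ((1 - q) / ((R : ℝ) + 1)) ≤ 1 - q := by
    rw [← mul_div_assoc, div_le_iff₀ hR2]
    nlinarith
  have h5 : (1 : ℝ) + -((1 - q) / ((R : ℝ) + 1)) = 1 - (1 - q) / ((R : ℝ) + 1) := by ring
  rw [h5] at h3
  linarith

private theorem Sum_pow {s : ℝ} (h0 : 0 < s) (h1 : s < 1) {i r c : ℕ} (h : r ≤ i + c) :
    s ^ i ≤ (s ^ c)⁻¹ * s ^ r := by
  have h2 : s ^ (i + c) ≤ s ^ r := pow_le_pow_of_le_one h0.le h1.le h
  rw [pow_add] at h2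
  have h3 : 0 < s ^ c := pow_pos h0 c
  rw [mul_comm, ← div_eq_mul_inv, le_div_iff₀ h3]
  exact h2

private theorem Sum_dec (R : ℕ) {q : ℝ} (hq0 : 0 ≤ q) (hq1 : q < 1) :
    ∃ s A : ℝ, 0 < s ∧ s < 1 ∧ 0 ≤ A ∧ ∀ (N : ℕ) (x : ℝ), x ≤ 1 →
      (∀ k : ℕ, k * R < N → x ≤ q ^ k) → x ≤ A * s ^ N := by
  obtain ⟨s, hs0, hs1, hs⟩ := Sum_geo (R + 1) (by omega) hq0 hq1
  refine ⟨s, (s ^ (R + 1))⁻¹, hs0, hs1, by positivity, fun N x hx1 hx => ?_⟩
  rcases Nat.eq_zero_or_pos N with hN | hN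
  · have h1 := Sum_pow hs0 hs1 (i := 0) (r := N) (c := R + 1) (by omega)
    rw [pow_zero] at h1
    exact hx1.trans h1
  · have h2 := Nat.div_add_mod (N - 1) (R + 1)
    have h3 := Nat.mod_lt (N - 1) (show R + 1 > 0 by omega)
    have h4 : (N - 1) / (R + 1) * R < N := by
      have h5 : (N - 1) / (R + 1) * R ≤ (R + 1) * ((N - 1) / (R + 1)) := by
        rw [mul_comm]
        exact Nat.mul_le_mul_right _ (Nat.le_succ R)
      omega
    have h6 := hx _ h4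
    have h7 : q ^ ((N - 1) / (R + 1)) ≤ s ^ ((R + 1) * ((N - 1) / (R + 1))) := by
      rw [pow_mul]
      exact pow_le_pow_left₀ hq0 hs _
    have h8 : N ≤ (R + 1) * ((N - 1) / (R + 1)) + (R + 1) := by omega
    exact h6.trans (h7.trans (Sum_pow hs0 hs1 h8))

private theorem Sum_summable (p : ℕ) {s : ℝ} (h0 : 0 < s) (h1 : s < 1) :
    Summable (fun k : ℕ => ((k : ℝ) + 1) ^ p * s ^ k) := by
  have h2 : Summable (fun k : ℕ => (k : ℝ) ^ p * s ^ k) :=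
    summable_pow_mul_geometric_of_norm_lt_one p (by
      rw [Real.norm_of_nonneg h0.le]
      exact h1)
  have h3 := ((summable_nat_add_iff 1).2 h2).mul_left s⁻¹
  refine h3.congr fun k => ?_
  push_cast
  rw [pow_succ]
  field_simp

private theorem Sum_gen {V : Type} [DecidableEq V] (d m R c : ℕ) {q : ℝ} (hq0 : 0 ≤ q)
    (hq1 : q < 1) (N : V → ℕ) (hN : ∀ (s : Finset V) (k : ℕ),
      (s.filter (fun v => N v = k)).card ≤ c * (2 * k + 1) ^ d) :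
    ∃ C : ℝ, ∀ (s : Finset V) (b : V → ℝ), (∀ v, 0 ≤ b v) → (∀ v, b v ≤ 1) →
      (∀ (k : ℕ) (v : V), k * R < N v → b v ≤ q ^ k) →
      ∑ v ∈ s, (1 + (N v : ℝ)) ^ m * b v ≤ C := by
  obtain ⟨σ, A, hs0, hs1, hA, hdec⟩ := Sum_dec R hq0 hq1
  have hsum : Summable (fun k : ℕ => (c : ℝ) * 2 ^ d * A * (((k : ℝ) + 1) ^ (d + m) * σ ^ k)) :=
    (Sum_summable (d + m) hs0 hs1).mul_left _
  refine ⟨∑' k : ℕ, (c : ℝ) * 2 ^ d * A * (((k : ℝ) + 1) ^ (d + m) * σ ^ k), ?_⟩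
  intro s b hb0 hb1 hb
  have h1 : ∑ v ∈ s, (1 + (N v : ℝ)) ^ m * b v ≤
      ∑ v ∈ s, (1 + (N v : ℝ)) ^ m * (A * σ ^ N v) := by
    refine Finset.sum_le_sum fun v _ => ?_
    refine mul_le_mul_of_nonneg_left ?_ (by positivity)
    exact hdec (N v) (b v) (hb1 v) fun k hk => hb k v hk
  have h2 : ∑ v ∈ s, (1 + (N v : ℝ)) ^ m * (A * σ ^ N v) =
      ∑ k ∈ range (s.sup N + 1), ∑ v ∈ s.filter (fun v => N v = k),
        (1 + (N v : ℝ)) ^ m * (A * σ ^ N v) := by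
    symm
    refine Finset.sum_fiberwise_of_maps_to (fun v hv => ?_) _
    rw [Finset.mem_range]
    exact Nat.lt_succ_of_le (Finset.le_sup (f := N) hv)
  have h3 : ∀ k ∈ range (s.sup N + 1), ∑ v ∈ s.filter (fun v => N v = k),
      (1 + (N v : ℝ)) ^ m * (A * σ ^ N v) ≤
      (c : ℝ) * 2 ^ d * A * (((k : ℝ) + 1) ^ (d + m) * σ ^ k) := by
    intro k _
    have h4 : ∑ v ∈ s.filter (fun v => N v = k), (1 + (N v : ℝ)) ^ m * (A * σ ^ N v) =
        ((s.filter (fun v => N v = k)).card : ℝ) * ((1 + (k : ℝ)) ^ m * (A * σ ^ k)) := by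
      rw [← nsmul_eq_mul, ← Finset.sum_const]
      refine Finset.sum_congr rfl fun v hv => ?_
      rw [(Finset.mem_filter.1 hv).2]
    have h5 : ((s.filter (fun v => N v = k)).card : ℝ) ≤ c * (2 * (k : ℝ) + 1) ^ d := by
      exact_mod_cast hN s k
    have h6 : (2 * (k : ℝ) + 1) ^ d ≤ (2 * ((k : ℝ) + 1)) ^ d := by
      refine pow_le_pow_left₀ (by positivity) ?_ d
      linarith
    have h7 : (0 : ℝ) ≤ (1 + (k : ℝ)) ^ m * (A * σ ^ k) := by positivity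
    rw [h4]
    calc ((s.filter (fun v => N v = k)).card : ℝ) * ((1 + (k : ℝ)) ^ m * (A * σ ^ k))
        ≤ (c * (2 * ((k : ℝ) + 1)) ^ d) * ((1 + (k : ℝ)) ^ m * (A * σ ^ k)) := by
          refine mul_le_mul_of_nonneg_right (h5.trans ?_) h7
          exact mul_le_mul_of_nonneg_left h6 (by positivity)
      _ = (c : ℝ) * 2 ^ d * A * (((k : ℝ) + 1) ^ (d + m) * σ ^ k) := by
          rw [mul_pow, pow_add, add_comm (1 : ℝ) (k : ℝ)]
          ring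
  calc ∑ v ∈ s, (1 + (N v : ℝ)) ^ m * b v
      ≤ ∑ k ∈ range (s.sup N + 1), (c : ℝ) * 2 ^ d * A * (((k : ℝ) + 1) ^ (d + m) * σ ^ k) := by
        refine h1.trans ?_
        rw [h2]
        exact Finset.sum_le_sum h3
    _ ≤ ∑' k : ℕ, (c : ℝ) * 2 ^ d * A * (((k : ℝ) + 1) ^ (d + m) * σ ^ k) :=
        hsum.sum_le_tsum _ fun k _ => by positivity

theorem sum_exp_le (d m R : ℕ) {q : ℝ} (hq0 : 0 ≤ q) (hq1 : q < 1) :
    ∃ C : ℝ, ∀ (s : Finset (Fin d → ℤ)) (b : (Fin d → ℤ) → ℝ), (∀ v, 0 ≤ b v) → (∀ v, b v ≤ 1) →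
      (∀ (k : ℕ) (v : Fin d → ℤ), k * R < nrm v → b v ≤ q ^ k) →
      ∑ v ∈ s, (1 + (nrm v : ℝ)) ^ m * b v ≤ C := by
  refine Sum_gen d m R 1 hq0 hq1 (nrm : (Fin d → ℤ) → ℕ) fun s k => ?_
  rw [one_mul, ← card_Lam (d := d) k]
  refine Finset.card_le_card fun v hv => ?_
  rw [mem_Lam, (Finset.mem_filter.1 hv).2]

theorem sum_exp_W (n m R : ℕ) (ι : Type) [Fintype ι] [DecidableEq ι] {q : ℝ} (hq0 : 0 ≤ q)
    (hq1 : q < 1) :
    ∃ C : ℝ, ∀ (s : Finset ((Fin n → ℤ) × ι)) (b : (Fin n → ℤ) × ι → ℝ), (∀ v, 0 ≤ b v) →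
      (∀ v, b v ≤ 1) → (∀ (k : ℕ) (v : (Fin n → ℤ) × ι), k * R < nrm v.1 → b v ≤ q ^ k) →
      ∑ v ∈ s, (1 + (nrm v.1 : ℝ)) ^ m * b v ≤ C := by
  refine Sum_gen n m R (Fintype.card ι) hq0 hq1 (fun v : (Fin n → ℤ) × ι => nrm v.1)
    fun s k => ?_
  rw [← card_Lam (d := n) k, mul_comm, ← Finset.card_univ (α := ι), ← Finset.card_product]
  refine Finset.card_le_card fun v hv => ?_
  rw [Finset.mem_product, mem_Lam]
  exact ⟨(Finset.mem_filter.1 hv).2.le, Finset.mem_univ _⟩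

theorem tendsto_shell (d R c : ℕ) (hR : 1 ≤ R) {q : ℝ} (hq0 : 0 ≤ q) (hq1 : q < 1) :
    Filter.Tendsto (fun r : ℕ => ((2 * (r : ℝ) + 3) ^ d) * q ^ ((r - c) / R)) Filter.atTop
      (nhds 0) := by
  obtain ⟨s, hs0, hs1, hs⟩ := Sum_geo R hR hq0 hq1
  have h1 : Filter.Tendsto (fun r : ℕ => 3 ^ d * (s ^ (c + R))⁻¹ * (((r : ℝ) + 1) ^ d * s ^ r))
      Filter.atTop (nhds 0) := by
    have h2 := ((Sum_summable d hs0 hs1).tendsto_atTop_zero).const_mul (3 ^ d * (s ^ (c + R))⁻¹)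
    rw [mul_zero] at h2
    exact h2
  refine squeeze_zero (fun r => by positivity) (fun r => ?_) h1
  have h2 := Nat.div_add_mod (r - c) R
  have h3 := Nat.mod_lt (r - c) hR
  have h4 : r ≤ R * ((r - c) / R) + (c + R) := by omega
  have h5 : q ^ ((r - c) / R) ≤ s ^ (R * ((r - c) / R)) := by
    rw [pow_mul]
    exact pow_le_pow_left₀ hq0 hs _
  have h6 := h5.trans (Sum_pow hs0 hs1 h4)
  have h7 : (2 * (r : ℝ) + 3) ^ d ≤ (3 * ((r : ℝ) + 1)) ^ d := by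
    refine pow_le_pow_left₀ (by positivity) ?_ d
    have : (0 : ℝ) ≤ r := Nat.cast_nonneg r
    linarith
  calc (2 * (r : ℝ) + 3) ^ d * q ^ ((r - c) / R)
      ≤ (3 * ((r : ℝ) + 1)) ^ d * ((s ^ (c + R))⁻¹ * s ^ r) :=
        mul_le_mul h7 h6 (by positivity) (by positivity)
    _ = 3 ^ d * (s ^ (c + R))⁻¹ * (((r : ℝ) + 1) ^ d * s ^ r) := by
        rw [mul_pow]
        ring

end IPC.S
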