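import Pool.Agent.Lib.MP_25e40f_pr.S.Orb
import Pool.Agent.Lib.MP_25e40f_pr.S.Sum
import Pool.Agent.Lib.MP_25e40f_pr.S.Ode

/-!
# Stream S, job Top: consequences of sharpness (about 170 lines)

`W_decay`: `exists_phi_lt` and `wdecay`.  `W_moments`: `sum_exp_W` with `b v = τ(x, x' )`: for fixed `x`, `b w = τ(x, (x.1 + w.1, w.2))`, `nrm ((x.1 + w.1) - x.1) = nrm w.1`, the sum over `s` is the sum over the image of `s` under `v ↦ (v.1 - x.1, v.2)`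
(injective, `Finset.sum_image`); the constant of `sum_exp_W` does not depend on `b`.  `Z_decay`, `Z_moments` the same.
`noPerc_of_decay_Z`: `arm p x r ≤ ∑_{y ∈ Lam (r+1) \ Lam r} τ(x, y)` (`Pr_exists_le`, `tauD_le_tau`), `nrm (y - x) ≥ r + 1 - nrm x`; with `R + 1` instead of `R` (`k (R+1) ≥ k R`) and `k = (r - nrm x)/(R+1)`, `k (R+1) ≤ r - nrm x < nrm (y - x)`, the sum is at most
`(2r+3)^d q^{(r - nrm x)/(R+1)} → 0` (`tendsto_shell`, `card_Lam`).  `noPerc_of_phi`: `zdecay` and `noPerc_of_decay_Z`.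
`phi_pc`: `pc < 1/2`.  If `φ_{pc}(0, S) < 1`, by `phi_continuous` some `p ∈ (pc, 1/2)` has `φ_p(0, S) < 1`, so `NoPerc p` and `p ≤ pc` (`le_csSup`): contradiction.
`pc_pos`: `d ≥ 1`, `p = 1/(4d) ≤ 1/2`: `φ_p(0, {0}) = p #nb(0) ≤ 1/2 < 1` (`phi_eq_card`, `card_nb_le`, `tauD_self`), so `NoPerc p`, `p ≤ pc`.
-/

set_option autoImplicit false

noncomputable section

open Finset
open scoped Classical

namespace IPC.S

section W

variable {n : ℕ} {ι : Type} [Fintype ι] [DecidableEq ι] (H : SimpleGraph ι)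

theorem W_decay {p : ℝ} (h0 : 0 ≤ p) (h1 : p ≤ 1 / 2) (hp : p < (Wg n ι H).pc) :
    ∃ q : ℝ, 0 ≤ q ∧ q < 1 ∧ ∃ R : ℕ, ∀ (k : ℕ) (x v : (Fin n → ℤ) × ι),
      k * R < nrm (v.1 - x.1) → (Wg n ι H).tau p x v ≤ q ^ k :=
  wdecay H h0 h1 fun i => exists_phi_lt (Wg n ι H) h0 hp ((0 : Fin n → ℤ), i)

theorem W_moments {p : ℝ} (h0 : 0 ≤ p) (h1 : p ≤ 1 / 2) (hp : p < (Wg n ι H).pc) (m : ℕ) :
    ∃ C : ℝ, ∀ (x : (Fin n → ℤ) × ι) (s : Finset ((Fin n → ℤ) × ι)),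
      ∑ v ∈ s, (1 + (nrm (v.1 - x.1) : ℝ)) ^ m * (Wg n ι H).tau p x v ≤ C := by
  obtain ⟨q, hq0, hq1, R, hR⟩ := W_decay H h0 h1 hp
  obtain ⟨C, hC⟩ := sum_exp_W n m R ι hq0 hq1
  refine ⟨C, fun x s => ?_⟩
  have hp1 : p ≤ 1 := by linarith
  have h2 := hC (s.image fun v => (v.1 - x.1, v.2)) (fun w => (Wg n ι H).tau p x (x.1 + w.1, w.2))
    (fun v => T.tau_nonneg _ h0 hp1 _ _) (fun v => T.tau_le_one _ h0 hp1 _ _)
    (fun k v hv => hR k x _ (by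
      show k * R < nrm (x.1 + v.1 - x.1)
      rwa [add_sub_cancel_left]))
  rw [Finset.sum_image] at h2
  · refine le_trans (le_of_eq ?_) h2
    refine Finset.sum_congr rfl fun v _ => ?_
    show (1 + (nrm (v.1 - x.1) : ℝ)) ^ m * (Wg n ι H).tau p x v =
      (1 + (nrm (v.1 - x.1) : ℝ)) ^ m * (Wg n ι H).tau p x (x.1 + (v.1 - x.1), v.2)
    rw [add_sub_cancel]
  · intro v _ w _ hvw
    have h3 := Prod.ext_iff.mp hvw
    obtain ⟨h4, h5⟩ := h3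
    simp only at h4 h5
    refine Prod.ext ?_ h5
    exact sub_left_inj.mp h4

end W

variable {d : ℕ}

theorem Z_decay {p : ℝ} (h0 : 0 ≤ p) (h1 : p ≤ 1 / 2) (hp : p < (Zg d).pc) :
    ∃ q : ℝ, 0 ≤ q ∧ q < 1 ∧ ∃ R : ℕ, ∀ (k : ℕ) (x v : Fin d → ℤ),
      k * R < nrm (v - x) → (Zg d).tau p x v ≤ q ^ k :=
  zdecay h0 h1 (exists_phi_lt (Zg d) h0 hp (0 : Fin d → ℤ))

theorem Z_moments {p : ℝ} (h0 : 0 ≤ p) (h1 : p ≤ 1 / 2) (hp : p < (Zg d).pc) (m : ℕ) :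
    ∃ C : ℝ, ∀ (x : Fin d → ℤ) (s : Finset (Fin d → ℤ)),
      ∑ v ∈ s, (1 + (nrm (v - x) : ℝ)) ^ m * (Zg d).tau p x v ≤ C := by
  obtain ⟨q, hq0, hq1, R, hR⟩ := Z_decay (d := d) h0 h1 hp
  obtain ⟨C, hC⟩ := sum_exp_le d m R hq0 hq1
  refine ⟨C, fun x s => ?_⟩
  have hp1 : p ≤ 1 := by linarith
  have h2 := hC (s.image fun v => v - x) (fun w => (Zg d).tau p x (x + w))
    (fun v => T.tau_nonneg _ h0 hp1 _ _) (fun v => T.tau_le_one _ h0 hp1 _ _)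
    (fun k v hv => hR k x _ (by rwa [add_sub_cancel_left]))
  rw [Finset.sum_image] at h2
  · refine le_trans (le_of_eq ?_) h2
    refine Finset.sum_congr rfl fun v _ => ?_
    rw [add_sub_cancel]
  · intro v _ w _ hvw
    exact sub_left_inj.mp hvw

theorem noPerc_of_decay_Z {p : ℝ} (h0 : 0 ≤ p) (h1 : p ≤ 1 / 2) {q : ℝ} (hq0 : 0 ≤ q) (hq1 : q < 1)
    {R : ℕ} (h : ∀ (k : ℕ) (x v : Fin d → ℤ), k * R < nrm (v - x) → (Zg d).tau p x v ≤ q ^ k) :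
    (Zg d).NoPerc p := by
  intro x
  have hp1 : p ≤ 1 := by linarith
  have ht := tendsto_shell d (R + 1) (nrm x) (by omega) hq0 hq1
  refine squeeze_zero' (Filter.Eventually.of_forall fun r => T.arm_nonneg _ h0 hp1 x r) ?_ ht
  filter_upwards [Filter.eventually_ge_atTop (nrm x)] with r hr
  have h2 : (Zg d).arm p x r ≤ ∑ y ∈ (Zg d).Lam (r + 1) \ (Zg d).Lam r, (Zg d).tau p x y := by
    refine (Pr_exists_le h0 hp1 _ _ (fun y ω => Conn ω x y)).trans ?_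
    refine Finset.sum_le_sum fun y _ => ?_
    exact T.tauD_le_tau (Zg d) h0 hp1 ((Zg d).Lam (r + 1)) x y
  have h3 : ∑ y ∈ (Zg d).Lam (r + 1) \ (Zg d).Lam r, (Zg d).tau p x y ≤
      ∑ _y ∈ (Zg d).Lam (r + 1) \ (Zg d).Lam r, q ^ ((r - nrm x) / (R + 1)) := by
    refine Finset.sum_le_sum fun y hy => ?_
    apply h
    have hy1 : ¬ nrm y ≤ r := fun hc => (Finset.mem_sdiff.mp hy).2 (mem_Lam.mpr hc)
    have hy2 := nrm_add (y - x) x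
    rw [sub_add_cancel] at hy2
    have hk : (r - nrm x) / (R + 1) * (R + 1) ≤ r - nrm x := Nat.div_mul_le_self _ _
    have hk2 : (r - nrm x) / (R + 1) * R ≤ (r - nrm x) / (R + 1) * (R + 1) :=
      Nat.mul_le_mul_left _ (by omega)
    omega
  have h4 : ∑ _y ∈ (Zg d).Lam (r + 1) \ (Zg d).Lam r, q ^ ((r - nrm x) / (R + 1)) ≤
      (2 * (r : ℝ) + 3) ^ d * q ^ ((r - nrm x) / (R + 1)) := by
    rw [Finset.sum_const, nsmul_eq_mul]
    apply mul_le_mul_of_nonneg_right _ (pow_nonneg hq0 _)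
    have h5 : ((Zg d).Lam (r + 1) \ (Zg d).Lam r).card ≤ (2 * (r + 1) + 1) ^ d := by
      rw [← card_Lam (d := d) (r + 1)]
      exact Finset.card_le_card Finset.sdiff_subset
    have h6 : (((Zg d).Lam (r + 1) \ (Zg d).Lam r).card : ℝ) ≤ (((2 * (r + 1) + 1) ^ d : ℕ) : ℝ) := by
      exact_mod_cast h5
    refine h6.trans (le_of_eq ?_)
    push_cast
    ring
  exact h2.trans (h3.trans h4)

theorem noPerc_of_phi {p : ℝ} (h0 : 0 ≤ p) (h1 : p ≤ 1 / 2)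
    (h : ∃ S : Finset (Fin d → ℤ), (0 : Fin d → ℤ) ∈ S ∧ phi (Zg d) p 0 S < 1) :
    (Zg d).NoPerc p := by
  obtain ⟨q, hq0, hq1, R, hR⟩ := zdecay h0 h1 h
  exact noPerc_of_decay_Z h0 h1 hq0 hq1 hR

private theorem Top_le_pc {p : ℝ} (h0 : 0 ≤ p) (h1 : p ≤ 1) (h : (Zg d).NoPerc p) :
    p ≤ (Zg d).pc := by
  apply le_csSup
  · refine ⟨1, ?_⟩
    rintro q ⟨_, hq, _⟩
    exact hq
  · exact ⟨h0, h1, h⟩

theorem phi_pc (hpc : (Zg d).pc < 1 / 2) (S : Finset (Fin d → ℤ)) (hS : (0 : Fin d → ℤ) ∈ S) :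
    1 ≤ phi (Zg d) (Zg d).pc 0 S := by
  by_contra hcon
  push Not at hcon
  have h1 := ((phi_continuous (Zg d) (0 : Fin d → ℤ) S).tendsto (Zg d).pc).eventually
    (gt_mem_nhds hcon)
  have h2 : ∀ᶠ p in nhdsWithin (Zg d).pc (Set.Ioi (Zg d).pc), phi (Zg d) p 0 S < 1 :=
    h1.filter_mono nhdsWithin_le_nhds
  have h3 : ∀ᶠ p in nhdsWithin (Zg d).pc (Set.Ioi (Zg d).pc), p ∈ Set.Ioo (Zg d).pc (1 / 2) :=
    Ioo_mem_nhdsGT hpc
  obtain ⟨p, h4, h5⟩ := (h2.and h3).exists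
  have hp0 : 0 ≤ p := (T.pc_nonneg (Zg d)).trans h5.1.le
  have h6 := noPerc_of_phi hp0 h5.2.le ⟨S, hS, h4⟩
  have h7 := Top_le_pc hp0 (by linarith [h5.2]) h6
  linarith [h5.1]

theorem pc_pos (hd : 1 ≤ d) : 1 / (4 * (d : ℝ)) ≤ (Zg d).pc := by
  have hd' : (1 : ℝ) ≤ d := by exact_mod_cast hd
  have h0 : (0 : ℝ) ≤ 1 / (4 * (d : ℝ)) := by positivity
  have h1 : 1 / (4 * (d : ℝ)) ≤ 1 / 2 := by
    apply one_div_le_one_div_of_le (by norm_num)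
    linarith
  apply Top_le_pc h0 (by linarith)
  refine noPerc_of_phi h0 h1 ⟨{0}, Finset.mem_singleton_self _, ?_⟩
  rw [phi_eq_card, Finset.sum_singleton, T.tauD_self, mul_one]
  have h2 : ((Zg d).nb 0 \ {0}).card ≤ 2 * d :=
    (Finset.card_le_card Finset.sdiff_subset).trans (card_nb_le 0)
  have h3 : (((Zg d).nb 0 \ {0}).card : ℝ) ≤ 2 * d := by exact_mod_cast h2
  calc 1 / (4 * (d : ℝ)) * (((Zg d).nb 0 \ {0}).card : ℝ) ≤ 1 / (4 * (d : ℝ)) * (2 * d) :=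
        mul_le_mul_of_nonneg_left h3 h0
    _ = 1 / 2 := by field_simp; norm_num
    _ < 1 := by norm_num

end IPC.S
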